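import Pool.Agent.Lib.MP_b5ead8_al_Q.Defs
import Pool.Agent.Lib.MP_b5ead8_al.Zed

/-!
# MP_b5ead8_al, project SolvableQuotients: generating tuples of a free abelian group
-/

set_option autoImplicit false

namespace Pool.Agent.MPb5eQ

open Function Pool.Agent.MPb5ead8

private theorem AbF_step {J : Type} {m : ℕ} (a : Fin (m + 1) → FreeGroup (Fin 1))
    (n : J → Fin (m + 1) → FreeGroup (Fin 1)) (ha : a 0 = FreeGroup.of 0)
    (hn : ∀ i, n i 0 = 1)
    (hgen : Subgroup.closure (Set.range (Sum.elim (fun _ : Fin 1 => a) n)) = ⊤) :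
    Subgroup.closure (Set.range (fun i : J => fun k : Fin m => n i k.succ)) = ⊤ := by
  let σ : FreeGroup (Fin 1) →* (Fin m → FreeGroup (Fin 1)) :=
    FreeGroup.lift (fun _ => fun k => a k.succ)
  have hc : ∀ x y : Fin m → FreeGroup (Fin 1), x * y = y * x := fun x y =>
    funext fun k => z_comm (x k) (y k)
  let φ : (Fin (m + 1) → FreeGroup (Fin 1)) →* (Fin m → FreeGroup (Fin 1)) :=
    MonoidHom.mk' (fun x => (fun k => x k.succ) * (σ (x 0))⁻¹) (by
      intro x y
      have e1 : (fun k : Fin m => (x * y) k.succ) =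
          (fun k => x k.succ) * (fun k => y k.succ) := rfl
      rw [e1, Pi.mul_apply, _root_.map_mul, mul_inv_rev, hc (σ (y 0))⁻¹ (σ (x 0))⁻¹,
        mul_assoc, mul_assoc, ← mul_assoc (fun k : Fin m => y k.succ),
        hc (fun k : Fin m => y k.succ) (σ (x 0))⁻¹, mul_assoc])
  have hφ : ∀ x, φ x = (fun k => x k.succ) * (σ (x 0))⁻¹ := fun x => rfl
  have hle : (⊤ : Subgroup (Fin (m + 1) → FreeGroup (Fin 1))) ≤
      (Subgroup.closure (Set.range (fun i : J => fun k : Fin m => n i k.succ))).comap φ := by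
    rw [← hgen, Subgroup.closure_le]
    rintro _ ⟨x, rfl⟩
    rw [SetLike.mem_coe, Subgroup.mem_comap, hφ]
    cases x with
    | inl k =>
      have e2 : σ (a 0) = fun k => a k.succ := by
        rw [ha]
        exact FreeGroup.lift_apply_of
      simp only [Sum.elim_inl, e2, mul_inv_cancel]
      exact one_mem _
    | inr i =>
      simp only [Sum.elim_inr, hn, _root_.map_one, inv_one, mul_one]
      exact Subgroup.subset_closure ⟨i, rfl⟩
  rw [eq_top_iff]
  intro y _
  have h1 := hle (Subgroup.mem_top (Fin.cons 1 y : Fin (m + 1) → FreeGroup (Fin 1)))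
  rw [Subgroup.mem_comap, hφ] at h1
  have e3 : (fun k : Fin m => (Fin.cons 1 y : Fin (m + 1) → FreeGroup (Fin 1)) k.succ) *
      (σ ((Fin.cons 1 y : Fin (m + 1) → FreeGroup (Fin 1)) 0))⁻¹ = y := by
    rw [Fin.cons_zero, _root_.map_one, inv_one, mul_one]
    rfl
  rw [e3] at h1
  exact h1

/-- Extension by one at the first place. -/
private def AbF_cons (m : ℕ) :
    (Fin m → FreeGroup (Fin 1)) →* (Fin (m + 1) → FreeGroup (Fin 1)) :=
  MonoidHom.mk' (fun y => Fin.cons 1 y) (by
    intro x y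
    funext k
    refine Fin.cases ?_ (fun j => ?_) k
    · rw [Pi.mul_apply, Fin.cons_zero, Fin.cons_zero, Fin.cons_zero, mul_one]
    · rw [Pi.mul_apply, Fin.cons_succ, Fin.cons_succ, Fin.cons_succ, Pi.mul_apply])

private theorem AbF_cons_zero {m : ℕ} (y : Fin m → FreeGroup (Fin 1)) :
    AbF_cons m y 0 = 1 := rfl

private theorem AbF_cons_succ {m : ℕ} (y : Fin m → FreeGroup (Fin 1)) (k : Fin m) :
    AbF_cons m y k.succ = y k := rfl

private theorem AbF_single {m : ℕ} (i : Fin m) (x : FreeGroup (Fin 1)) :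
    AbF_cons m (Pi.mulSingle i x) = Pi.mulSingle i.succ x := by
  funext k
  refine Fin.cases ?_ (fun j => ?_) k
  · rw [AbF_cons_zero, Pi.mulSingle_eq_of_ne (Fin.succ_ne_zero i).symm]
  · rw [AbF_cons_succ]
    by_cases h : j = i
    · rw [h, Pi.mulSingle_eq_same, Pi.mulSingle_eq_same]
    · rw [Pi.mulSingle_eq_of_ne h, Pi.mulSingle_eq_of_ne fun h1 => h (Fin.succ_injective m h1)]

private def AbF_e (m : ℕ) : Fin (m + 1) ≃ Fin 1 ⊕ Fin m where
  toFun := Fin.cases (Sum.inl 0) Sum.inr
  invFun := Sum.elim (fun _ => 0) Fin.succ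
  left_inv := by
    intro k
    refine Fin.cases rfl (fun j => rfl) k
  right_inv := by
    rintro (k | k)
    · rw [Subsingleton.elim k 0]
      rfl
    · rfl

/-- Generating tuples of `ℤ ^ m` (here `ℤ` is `FreeGroup (Fin 1)`, which is commutative by `z_comm`)
are Nielsen equivalent to the standard basis, extended by ones.

Proof by induction on `m`. `m = 0`: the group is trivial, take `ρ = ι`. Step: the coordinates at
`0` generate `FreeGroup (Fin 1)`; `nielsen` (with `h = 1`) and `NE.lift_map` for `Pi.evalMonoidHom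
_ 0`
give `t1 : Fin 1 ⊕ J → _` with coordinates at `0` equal to `of 0` at `inl 0` and `1` at all `inr i`.
The tails (`Fin.tail` or `fun i => i.succ`) of the `t1 (inr i)` generate the group for `m`: an
element
`Fin.cons 1 y` is a product of the entries of `t1`, apply the homomorphism
`x ↦ tail x * (σ (x 0))⁻¹` with `σ : FreeGroup (Fin 1) →* _`, `of 0 ↦ tail (t1 (inl 0))` (a
homomorphism
because everything is commutative), which maps `t1 (inl 0)` to `1`. Induction and
`NE.map`, `NE.sum_right` make the `t1 (inr i)` equal to the basis vectors `1, ..., m` and ones, and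
`NE.shear'` (with the entries of the second part, which generate `Fin.cons 1 _`) makes `t1 (inl 0)`
equal to the basis vector `0`. Reindex. -/
theorem free_ab {ι : Type} [Finite ι] (m : ℕ) (t : ι → Fin m → FreeGroup (Fin 1))
    (ht : Subgroup.closure (Set.range t) = ⊤) :
    ∃ ρ : Type, Finite ρ ∧ NE t (Sum.elim (fun i : Fin m => Pi.mulSingle i (FreeGroup.of 0))
      (fun _ : ρ => 1)) := by
  induction m generalizing ι with
  | zero =>
    refine ⟨ι, inferInstance, (NE.reindex t (Equiv.emptySum (Fin 0) ι)).trans (NE.of_eq ?_)⟩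
    funext x
    exact Subsingleton.elim _ _
  | succ m ih =>
    have h2 : Subgroup.closure (Set.range
        (⇑(Pi.evalMonoidHom (fun _ : Fin (m + 1) => FreeGroup (Fin 1)) 0) ∘ t)) = ⊤ := by
      rw [Set.range_comp, ← MonoidHom.map_closure, ht]
      exact Subgroup.map_top_of_surjective _ (fun y => ⟨fun _ => y, rfl⟩)
    obtain ⟨J, hJ, hNE⟩ := nielsen _ h2
    obtain ⟨t1, h3, h4⟩ := NE.lift_map _ hNE
    have ha : t1 (Sum.inl 0) 0 = FreeGroup.of 0 := congrFun h4 (Sum.inl 0)
    have hn : ∀ i : J, t1 (Sum.inr i) 0 = 1 := fun i => congrFun h4 (Sum.inr i)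
    have ht1 : t1 = Sum.elim (fun _ : Fin 1 => t1 (Sum.inl 0)) (fun i : J => t1 (Sum.inr i)) := by
      funext x
      cases x with
      | inl k => rw [Sum.elim_inl, Subsingleton.elim k 0]
      | inr i => rfl
    have h5 := h3.closure_top ht
    rw [ht1] at h5
    have h6 := AbF_step _ _ ha hn h5
    obtain ⟨ρ, hρ, h7⟩ := ih _ h6
    have h8 := h7.closure_top h6
    refine ⟨ρ, hρ, ?_⟩
    have e1 : (fun i : J => t1 (Sum.inr i)) =
        ⇑(AbF_cons m) ∘ (fun i : J => fun k : Fin m => t1 (Sum.inr i) k.succ) := by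
      funext i k
      refine Fin.cases ?_ (fun j => ?_) k
      · exact hn i
      · rfl
    have h9 : NE t1 (Sum.elim (fun _ : Fin 1 => t1 (Sum.inl 0)) (⇑(AbF_cons m) ∘
        Sum.elim (fun i : Fin m => Pi.mulSingle i (FreeGroup.of 0)) (fun _ : ρ => 1))) := by
      refine (NE.of_eq ht1).trans (NE.sum_right _ ?_)
      rw [e1]
      exact NE.map (AbF_cons m) h7
    obtain ⟨w, hw⟩ : ∃ w, FreeGroup.lift (Sum.elim (fun i : Fin m =>
        (Pi.mulSingle i (FreeGroup.of 0) : Fin m → FreeGroup (Fin 1))) (fun _ : ρ => 1)) w =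
        (fun k : Fin m => t1 (Sum.inl 0) k.succ)⁻¹ := by
      have h10 : (FreeGroup.lift (Sum.elim (fun i : Fin m =>
          (Pi.mulSingle i (FreeGroup.of 0) : Fin m → FreeGroup (Fin 1)))
          (fun _ : ρ => 1))).range = ⊤ := by
        rw [FreeGroup.range_lift_eq_closure, h8]
      exact MonoidHom.range_eq_top.1 h10 _
    have h11 : FreeGroup.lift (⇑(AbF_cons m) ∘ Sum.elim (fun i : Fin m =>
        (Pi.mulSingle i (FreeGroup.of 0) : Fin m → FreeGroup (Fin 1))) (fun _ : ρ => 1)) w =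
        AbF_cons m (fun k : Fin m => t1 (Sum.inl 0) k.succ)⁻¹ := by
      rw [← hw]
      have h12 : FreeGroup.lift (⇑(AbF_cons m) ∘ Sum.elim (fun i : Fin m =>
          (Pi.mulSingle i (FreeGroup.of 0) : Fin m → FreeGroup (Fin 1))) (fun _ : ρ => 1)) =
          (AbF_cons m).comp (FreeGroup.lift (Sum.elim (fun i : Fin m =>
          (Pi.mulSingle i (FreeGroup.of 0) : Fin m → FreeGroup (Fin 1))) (fun _ : ρ => 1))) := by
        apply FreeGroup.ext_hom
        intro i
        rw [MonoidHom.comp_apply, FreeGroup.lift_apply_of, FreeGroup.lift_apply_of]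
        rfl
      exact DFunLike.congr_fun h12 w
    have h13 := NE.shear' (fun _ : Fin 1 => t1 (Sum.inl 0)) (⇑(AbF_cons m) ∘
      Sum.elim (fun i : Fin m => (Pi.mulSingle i (FreeGroup.of 0) : Fin m → FreeGroup (Fin 1)))
        (fun _ : ρ => 1)) (fun _ => w)
    have h14 : (fun i : Fin 1 => (fun _ : Fin 1 => t1 (Sum.inl 0)) i *
        FreeGroup.lift (⇑(AbF_cons m) ∘ Sum.elim (fun i : Fin m =>
        (Pi.mulSingle i (FreeGroup.of 0) : Fin m → FreeGroup (Fin 1))) (fun _ : ρ => 1)) w) =
        fun _ => (Pi.mulSingle 0 (FreeGroup.of 0) : Fin (m + 1) → FreeGroup (Fin 1)) := by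
      funext i k
      rw [h11, Pi.mul_apply]
      refine Fin.cases ?_ (fun j => ?_) k
      · rw [AbF_cons_zero, mul_one, Pi.mulSingle_eq_same]
        exact ha
      · rw [AbF_cons_succ, Pi.mulSingle_eq_of_ne (Fin.succ_ne_zero j), Pi.inv_apply,
          mul_inv_cancel]
    rw [h14] at h13
    refine h3.trans (h9.trans (h13.trans ?_))
    refine (NE.reindex _ ((Equiv.sumCongr (AbF_e m) (Equiv.refl ρ)).trans
      (Equiv.sumAssoc (Fin 1) (Fin m) ρ))).trans (NE.of_eq ?_)
    funext x
    rcases x with k | c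
    · refine Fin.cases ?_ (fun j => ?_) k
      · rfl
      · exact AbF_single j (FreeGroup.of 0)
    · exact _root_.map_one (AbF_cons m)

end Pool.Agent.MPb5eQ
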