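import Pool.Agent.Lib.MP_b5ead8_al_Q.Defs
import Pool.Agent.Lib.MP_b5ead8_al_Q.AbF

/-!
# MP_b5ead8_al, project SolvableQuotients: the classes of the relators modulo commutators
-/

set_option autoImplicit false

namespace Pool.Agent.MPb5eQ

open Function Pool.Agent.MPb5ead8

/-- The homomorphism `of j ↦ Pi.mulSingle j (of 0)`. -/
private def AbZ_f (h : ℕ) : FreeGroup (Fin h) →* (Fin h → FreeGroup (Fin 1)) :=
  FreeGroup.lift (fun j => Pi.mulSingle j (FreeGroup.of 0))

private theorem AbZ_f_of {h : ℕ} (j : Fin h) :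
    AbZ_f h (FreeGroup.of j) = Pi.mulSingle j (FreeGroup.of 0) := FreeGroup.lift_apply_of

private theorem AbZ_surj (h : ℕ) : Surjective (AbZ_f h) := by
  intro y
  have h1 : ∀ (i : Fin h) (x : FreeGroup (Fin 1)),
      (Pi.mulSingle i x : Fin h → FreeGroup (Fin 1)) ∈ (AbZ_f h).range := by
    intro i x
    have h2 : (⊤ : Subgroup (FreeGroup (Fin 1))) ≤ (AbZ_f h).range.comap
        (MonoidHom.mulSingle (fun _ : Fin h => FreeGroup (Fin 1)) i) := by
      rw [← FreeGroup.closure_range_of (Fin 1), Subgroup.closure_le]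
      rintro _ ⟨k, rfl⟩
      rw [Subsingleton.elim k 0, SetLike.mem_coe, Subgroup.mem_comap]
      exact ⟨FreeGroup.of i, AbZ_f_of i⟩
    exact h2 (Subgroup.mem_top x)
  have h3 : y ∈ (AbZ_f h).range := by
    rw [← Finset.noncommProd_mulSingle y]
    exact Subgroup.noncommProd_mem _ _ fun c _ => h1 c (y c)
  exact h3

/-- The homomorphism in the other direction. -/
private def AbZ_g (h : ℕ) :
    (Fin h → FreeGroup (Fin 1)) →* Abelianization (FreeGroup (Fin h)) :=
  ∏ j : Fin h, (FreeGroup.lift (fun _ : Fin 1 =>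
    Abelianization.of (FreeGroup.of j : FreeGroup (Fin h)))).comp
      (Pi.evalMonoidHom (fun _ : Fin h => FreeGroup (Fin 1)) j)

private theorem AbZ_gf {h : ℕ} (x : FreeGroup (Fin h)) :
    AbZ_g h (AbZ_f h x) = Abelianization.of x := by
  have h1 : (AbZ_g h).comp (AbZ_f h) = Abelianization.of := by
    apply FreeGroup.ext_hom
    intro j
    rw [MonoidHom.comp_apply, AbZ_f_of, AbZ_g, MonoidHom.finsetProd_apply,
      Finset.prod_eq_single j]
    · rw [MonoidHom.comp_apply, Pi.evalMonoidHom_apply, Pi.mulSingle_eq_same,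
        FreeGroup.lift_apply_of]
    · intro k _ hk
      rw [MonoidHom.comp_apply, Pi.evalMonoidHom_apply, Pi.mulSingle_eq_of_ne hk,
        _root_.map_one]
    · intro hj
      exact absurd (Finset.mem_univ _) hj
  exact DFunLike.congr_fun h1 x

/-- Tuples of `h` elements of the free group of rank `h` whose normal closure is everything are
Nielsen equivalent to a tuple which is congruent to the basis modulo commutators.

Proof. Let `f : FreeGroup (Fin h) →* (Fin h → FreeGroup (Fin 1))`, `of j ↦ Pi.mulSingle j (of 0)`.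
Its
kernel is the commutator subgroup (the target is commutative and `Abelianization` of the free group:
for `w` in the kernel, `w` is congruent modulo commutators to the product of the
`of j ^ (exponent sum)`, so use a homomorphism `(Fin h → FreeGroup (Fin 1)) →* Abelianization _` in
the other direction, e.g. `x ↦ ∏ j, FreeGroup.lift (fun _ => Abelianization.of (of j)) (x j)`, whose
composition with `f` is `Abelianization.of`). The `f (q j)` generate the target, because the target
is
commutative and `f` is surjective. `free_ab` with `m = h` and `NE.card` (`ρ` is empty) give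
`NE (f ∘ q) (fun j => f (of j))` up to a reindexing; `NE.lift_map` or the automorphism itself is
`γ`. -/
theorem abz {h : ℕ} (q : Fin h → FreeGroup (Fin h))
    (hq : Subgroup.normalClosure (Set.range q) = ⊤) :
    ∃ γ : MulAut (FreeGroup (Fin h)), ∀ j,
      (FreeGroup.of j)⁻¹ * FreeGroup.lift q (γ (FreeGroup.of j)) ∈
        commutator (FreeGroup (Fin h)) := by
  have hc : ∀ x y : Fin h → FreeGroup (Fin 1), x * y = y * x := fun x y =>
    funext fun k => z_comm (x k) (y k)
  have h1 : Subgroup.closure (Set.range (⇑(AbZ_f h) ∘ q)) = ⊤ := by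
    have hN : (Subgroup.closure (Set.range (⇑(AbZ_f h) ∘ q))).Normal :=
      ⟨fun n hn g => by rwa [hc g n, mul_inv_cancel_right]⟩
    rw [eq_top_iff, ← Subgroup.map_top_of_surjective (AbZ_f h) (AbZ_surj h), ← hq,
      Subgroup.map_normalClosure _ _ (AbZ_surj h), ← Set.range_comp]
    exact Subgroup.normalClosure_le_normal Subgroup.subset_closure
  obtain ⟨ρ, hρ, h2⟩ := free_ab h _ h1
  have h3 := NE.card h2
  rw [Nat.card_sum, Nat.card_fin] at h3
  have h4 : IsEmpty ρ := by
    rw [← Finite.card_eq_zero_iff]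
    omega
  obtain ⟨γ, hγ⟩ := h2.trans (NE.reindex _ (Equiv.sumEmpty (Fin h) ρ).symm)
  refine ⟨γ, fun j => ?_⟩
  have h5 : FreeGroup.lift (⇑(AbZ_f h) ∘ q) = (AbZ_f h).comp (FreeGroup.lift q) := by
    apply FreeGroup.ext_hom
    intro i
    rw [MonoidHom.comp_apply, FreeGroup.lift_apply_of, FreeGroup.lift_apply_of]
    rfl
  have h6 : AbZ_f h (FreeGroup.lift q (γ (FreeGroup.of j))) = AbZ_f h (FreeGroup.of j) := by
    have h7 := hγ j
    rw [h5, MonoidHom.comp_apply] at h7
    rw [h7, AbZ_f_of]
    rfl
  rw [← Abelianization.ker_of, MonoidHom.mem_ker, ← AbZ_gf, _root_.map_mul, _root_.map_inv, h6,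
    inv_mul_cancel, _root_.map_one]

end Pool.Agent.MPb5eQ
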