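import Pool.Agent.Lib.MP_b5ead8_al_Q.Mv2

/-!
# MP_b5ead8_al, project SolvableQuotients: Lemma 1, abelian normal subgroups
-/

set_option autoImplicit false

namespace Pool.Agent.MPb5eQ

open Function
open scoped commutatorElement

private theorem abm_cm {Q : Type} [Group Q] {M : Subgroup Q} (hM : ⁅M, M⁆ = ⊥) {a b : Q}
    (ha : a ∈ M) (hb : b ∈ M) : a * b = b * a := by
  have h : ⁅a, b⁆ ∈ ⁅M, M⁆ := Subgroup.commutator_mem_commutator ha hb
  rw [hM, Subgroup.mem_bot] at h
  exact commutatorElement_eq_one_iff_mul_comm.1 h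

/-- Calculus in an abelian normal subgroup: a subgroup `T` which contains `⁅m, s⁆` for all `m` in a
normal subgroup `P ≤ M` and all `s` in a set `S` which generates `Q` together with `M` contains
`⁅P, ⊤⁆`.

Proof. `C = {c | ∀ m ∈ P, ⁅m, c⁆ ∈ T}` is a subgroup: `⁅m, c * d⁆ = ⁅d * m * d⁻¹, c⁆ * ⁅m, d⁆` and
`⁅m, c⁻¹⁆ = ⁅c⁻¹ * m * c, c⁆⁻¹` up to the order of commuting elements of `M` (check: in additive
notation
`⁅m, c⁆ = (1 - c) m`). It contains `S` and `M` (`⁅m, c⁆ = 1` for `c ∈ M`), so `C = ⊤`. -/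
theorem abm_calc {Q : Type} [Group Q] {M P T : Subgroup Q} [P.Normal] (hM : ⁅M, M⁆ = ⊥)
    (hP : P ≤ M) (S : Set Q) (hS : Subgroup.closure S ⊔ M = ⊤)
    (hT : ∀ m ∈ P, ∀ s ∈ S, ⁅m, s⁆ ∈ T) : ⁅P, (⊤ : Subgroup Q)⁆ ≤ T := by
  have hcm : ∀ a ∈ P, ∀ b ∈ P, a * b = b * a := fun a ha b hb => abm_cm hM (hP ha) (hP hb)
  let C : Subgroup Q :=
    { carrier := {c | ∀ m ∈ P, ⁅m, c⁆ ∈ T}
      one_mem' := by
        intro m _
        rw [commutatorElement_one_right]
        exact T.one_mem
      mul_mem' := by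
        intro c d hc hd m hm
        have h1 : d * m * d⁻¹ ∈ P := Subgroup.Normal.conj_mem inferInstance m hm d
        have h2 : c * (d * m * d⁻¹) * c⁻¹ ∈ P :=
          Subgroup.Normal.conj_mem inferInstance _ h1 c
        have h3 := T.mul_mem (hc _ h1) (hd m hm)
        have h4 : ⁅m, c * d⁆ = ⁅d * m * d⁻¹, c⁆ * ⁅m, d⁆ := by
          have e1 : ⁅m, c * d⁆ = m * (c * (d * m * d⁻¹) * c⁻¹)⁻¹ := by
            simp only [commutatorElement_def]
            group
          have e2 : ⁅d * m * d⁻¹, c⁆ * ⁅m, d⁆ =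
              (d * m * d⁻¹) * ((c * (d * m * d⁻¹) * c⁻¹)⁻¹ * m) * (d * m * d⁻¹)⁻¹ := by
            simp only [commutatorElement_def]
            group
          rw [e1, e2, hcm _ h1 _ (P.mul_mem (P.inv_mem h2) hm), mul_inv_cancel_right,
            hcm _ (P.inv_mem h2) _ hm]
        rw [h4]
        exact h3
      inv_mem' := by
        intro c hc m hm
        have h1 : c⁻¹ * m * c⁻¹⁻¹ ∈ P := Subgroup.Normal.conj_mem inferInstance m hm c⁻¹
        have h2 : ⁅m, c⁻¹⁆ = ⁅c⁻¹ * m * c⁻¹⁻¹, c⁆⁻¹ := by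
          simp only [commutatorElement_def]
          group
        rw [h2]
        exact T.inv_mem (hc _ h1) }
  have hC : (⊤ : Subgroup Q) ≤ C := by
    rw [← hS, sup_le_iff, Subgroup.closure_le]
    refine ⟨fun s hs m hm => hT m hm s hs, fun c hc m hm => ?_⟩
    have h : ⁅m, c⁆ = 1 := commutatorElement_eq_one_iff_mul_comm.2 (abm_cm hM (hP hm) hc)
    rw [h]
    exact T.one_mem
  rw [Subgroup.commutator_le]
  intro m hm c hc
  exact hC hc m hm

/-- For a fixed `s` it suffices to check conjugates of generators of `P`: `m ↦ ⁅m, s⁆` is a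
homomorphism on the abelian normal subgroup `M`, and `P` is generated by the conjugates
(`Subgroup.normalClosure`, `Group.conjugatesOfSet`). -/
theorem abm_gen {Q : Type} [Group Q] {M T : Subgroup Q} [M.Normal] (hM : ⁅M, M⁆ = ⊥) (S : Set Q)
    (hS : S ⊆ M) (s : Q) (hT : ∀ m ∈ S, ∀ c : Q, ⁅c * m * c⁻¹, s⁆ ∈ T) :
    ∀ m ∈ Subgroup.normalClosure S, ⁅m, s⁆ ∈ T := by
  let D : Subgroup Q :=
    { carrier := {m | m ∈ M ∧ ⁅m, s⁆ ∈ T}
      one_mem' := ⟨M.one_mem, by
        rw [commutatorElement_one_left]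
        exact T.one_mem⟩
      mul_mem' := by
        rintro a b ⟨ha, ha'⟩ ⟨hb, hb'⟩
        refine ⟨M.mul_mem ha hb, ?_⟩
        have h1 : s * a⁻¹ * s⁻¹ ∈ M := Subgroup.Normal.conj_mem inferInstance _ (M.inv_mem ha) s
        have h2 : s * b⁻¹ * s⁻¹ ∈ M := Subgroup.Normal.conj_mem inferInstance _ (M.inv_mem hb) s
        have e1 : ⁅a * b, s⁆ = a * ((b * (s * b⁻¹ * s⁻¹)) * (s * a⁻¹ * s⁻¹)) := by
          simp only [commutatorElement_def]
          group
        have e2 : ⁅a, s⁆ * ⁅b, s⁆ = a * ((s * a⁻¹ * s⁻¹) * (b * (s * b⁻¹ * s⁻¹))) := by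
          simp only [commutatorElement_def]
          group
        rw [e1, abm_cm hM (M.mul_mem hb h2) h1, ← e2]
        exact T.mul_mem ha' hb'
      inv_mem' := by
        rintro a ⟨ha, ha'⟩
        refine ⟨M.inv_mem ha, ?_⟩
        have h1 : s * a * s⁻¹ ∈ M := Subgroup.Normal.conj_mem inferInstance _ ha s
        have e1 : ⁅a⁻¹, s⁆ = a⁻¹ * (s * a * s⁻¹) := by
          simp only [commutatorElement_def]
          group
        have e2 : ⁅a, s⁆⁻¹ = (s * a * s⁻¹) * a⁻¹ := by
          simp only [commutatorElement_def]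
          group
        rw [e1, abm_cm hM (M.inv_mem ha) h1, ← e2]
        exact T.inv_mem ha' }
  have hD : Subgroup.normalClosure S ≤ D := by
    rw [Subgroup.normalClosure, Subgroup.closure_le]
    intro x hx
    obtain ⟨m, hm, hmx⟩ := Group.mem_conjugatesOfSet_iff.1 hx
    obtain ⟨c, rfl⟩ := isConj_iff.1 hmx
    exact ⟨Subgroup.Normal.conj_mem inferInstance m (hS hm) c, hT m hm c⟩
  intro m hm
  exact (hD hm).2

section

variable {g h : ℕ} {Q : Type} [Group Q] {p : Fin g → Q} {q : Fin h → Q}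

private theorem abm_conj {M : Subgroup Q} [M.Normal] (hM : ⁅M, M⁆ = ⊥) {H : Subgroup Q}
    (hH : H ⊔ M = ⊤) {x : Q} (hx : x ∈ M) (c : Q) : ∃ c' ∈ H, c' * x * c'⁻¹ = c * x * c⁻¹ := by
  have hc : c ∈ ((H ⊔ M : Subgroup Q) : Set Q) := by
    rw [hH]
    exact Subgroup.mem_top c
  rw [Subgroup.mul_normal] at hc
  obtain ⟨c', hc', μ, hμ, rfl⟩ := hc
  refine ⟨c', hc', ?_⟩
  have e : (c' * μ) * x * (c' * μ)⁻¹ = c' * (μ * x * μ⁻¹) * c'⁻¹ := by group
  show c' * x * c'⁻¹ = (c' * μ) * x * (c' * μ)⁻¹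
  rw [e, abm_cm hM hμ hx, mul_inv_cancel_right]

private theorem abm_coset {M : Subgroup Q} {q' : Fin h → Q}
    (hq : Subgroup.closure (Set.range q) ⊔ M = ⊤) (hq' : ∀ l, (q l)⁻¹ * q' l ∈ M) :
    Subgroup.closure (Set.range q') ⊔ M = ⊤ := by
  rw [eq_top_iff, ← hq, sup_le_iff, Subgroup.closure_le]
  refine ⟨?_, le_sup_right⟩
  rintro _ ⟨l, rfl⟩
  have h1 : q' l ∈ Subgroup.closure (Set.range q') ⊔ M :=
    (le_sup_left : _ ≤ Subgroup.closure (Set.range q') ⊔ M)
      (Subgroup.subset_closure ⟨l, rfl⟩)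
  have h2 : ((q l)⁻¹ * q' l)⁻¹ ∈ Subgroup.closure (Set.range q') ⊔ M :=
    (le_sup_right : _ ≤ Subgroup.closure (Set.range q') ⊔ M) (M.inv_mem (hq' l))
  have h3 := Subgroup.mul_mem _ h1 h2
  have e : q' l * ((q l)⁻¹ * q' l)⁻¹ = q l := by group
  rwa [e] at h3

private theorem abm_via {M : Subgroup Q} [M.Normal] (hM : ⁅M, M⁆ = ⊥) (hp : ∀ i, p i ∈ M)
    (hq : Subgroup.closure (Set.range q) ⊔ M = ⊤) (i : Fin g) (c : Q) {q' : Fin h → Q}
    (hq' : ∀ l, (q l)⁻¹ * q' l ∈ M)
    (hr : Rel (update p i (c * p i * c⁻¹)) q (update p i (c * p i * c⁻¹)) q') :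
    Rel p q p q' := by
  obtain ⟨c1, hc1, e1⟩ := abm_conj hM hq (hp i) c
  have r1 := Rel.pconj (p := p) (q := q) i hc1
  rw [e1] at r1
  have hm : c * p i * c⁻¹ ∈ M := Subgroup.Normal.conj_mem inferInstance _ (hp i) c
  obtain ⟨c2, hc2, e2⟩ := abm_conj hM (abm_coset hq hq') hm c⁻¹
  have r2 := Rel.pconj (p := update p i (c * p i * c⁻¹)) (q := q') i hc2
  have e3 : c⁻¹ * (c * p i * c⁻¹) * c⁻¹⁻¹ = p i := by group
  rw [update_self, e2, e3, update_idem, update_eq_self] at r2
  exact (r1.trans hr).trans r2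

/-- One step of Lemma 1: multiplication of `q j` by `⁅m, q l⁆`, `m = c * p i * c⁻¹`.

Proof. As `Subgroup.closure (Set.range q) ⊔ M = ⊤` and `M` is normal and abelian, there is
`c' ∈ Subgroup.closure (Set.range q)` with `c' * p i * c'⁻¹ = m` (write `c = c' * μ`, `μ ∈ M`). For
`l ≠ j`: `Rel.pconj` with `c'`, then `Rel.qcom` (the new `p i` is `m`), then back to `p`: the new
`q''`
also satisfies the hypothesis and `c'⁻¹ = c'' * μ'` with `c'' ∈ closure (range q'')`, `μ' ∈ M`, so
`Rel.pconj` with `c''` gives `p i` again. For `l = j` use `m' = q j * m * (q j)⁻¹` instead of `m`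
and
`Rel.qconj`: `m' * q j * m'⁻¹ = q j * (m * (q j * m⁻¹ * (q j)⁻¹)) = q j * ⁅m, q j⁆` (`m` commutes
with
`q j * m⁻¹ * (q j)⁻¹`). -/
theorem abm_step {M : Subgroup Q} [M.Normal] (hM : ⁅M, M⁆ = ⊥) (hp : ∀ i, p i ∈ M)
    (hq : Subgroup.closure (Set.range q) ⊔ M = ⊤) (i : Fin g) (j l : Fin h) (c : Q) :
    Rel p q p (update q j (q j * ⁅c * p i * c⁻¹, q l⁆)) := by
  by_cases hlj : l = j
  · subst hlj
    refine abm_via hM hp hq i (q l * c) (fun k => ?_) ?_
    · by_cases hk : k = l
      · subst hk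
        rw [update_self, inv_mul_cancel_left]
        have h1 : c * p i * c⁻¹ ∈ M := Subgroup.Normal.conj_mem inferInstance _ (hp i) c
        have h2 : q k * (c * p i * c⁻¹)⁻¹ * (q k)⁻¹ ∈ M :=
          Subgroup.Normal.conj_mem inferInstance _ (M.inv_mem h1) (q k)
        have e : ⁅c * p i * c⁻¹, q k⁆ = (c * p i * c⁻¹) * (q k * (c * p i * c⁻¹)⁻¹ * (q k)⁻¹) := by
          simp only [commutatorElement_def]
          group
        rw [e]
        exact M.mul_mem h1 h2
      · rw [update_of_ne hk, inv_mul_cancel]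
        exact M.one_mem
    · have r := Rel.qconj (p := update p i (q l * c * p i * (q l * c)⁻¹)) (q := q) i l
      rw [update_self] at r
      have e : q l * c * p i * (q l * c)⁻¹ * q l * (q l * c * p i * (q l * c)⁻¹)⁻¹ =
          q l * ⁅c * p i * c⁻¹, q l⁆ := by
        simp only [commutatorElement_def]
        group
      rw [e] at r
      exact r
  · refine abm_via hM hp hq i c (fun k => ?_) ?_
    · by_cases hk : k = j
      · subst hk
        rw [update_self, inv_mul_cancel_left]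
        have h1 : c * p i * c⁻¹ ∈ M := Subgroup.Normal.conj_mem inferInstance _ (hp i) c
        have h2 : q l * (c * p i * c⁻¹)⁻¹ * (q l)⁻¹ ∈ M :=
          Subgroup.Normal.conj_mem inferInstance _ (M.inv_mem h1) (q l)
        have e : ⁅c * p i * c⁻¹, q l⁆ = (c * p i * c⁻¹) * (q l * (c * p i * c⁻¹)⁻¹ * (q l)⁻¹) := by
          simp only [commutatorElement_def]
          group
        rw [e]
        exact M.mul_mem h1 h2
      · rw [update_of_ne hk, inv_mul_cancel]
        exact M.one_mem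
    · have r := Rel.qcom (p := update p i (c * p i * c⁻¹)) (q := q) i hlj
      rw [update_self] at r
      exact r

/-- Lemma 1 for one coordinate.

Proof. Let `T = {n ∈ M | ∀ q', (∀ l, (q l)⁻¹ * q' l ∈ M) → Rel p q' p (update q' j (q' j * n))}`, a
subgroup (inverse: `Rel.symm`). By `abm_step` for `q'` (which also generates `Q` modulo `M`; and
`⁅m, q' l⁆ = ⁅m, q l⁆` for `m ∈ M`) the elements `⁅c * p i * c⁻¹, q l⁆` are in `T`. Now `abm_gen`
(`S = Set.range p`) and `abm_calc` (`S = Set.range q`). -/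
theorem abm_one {M : Subgroup Q} [M.Normal] (hM : ⁅M, M⁆ = ⊥) (hp : ∀ i, p i ∈ M)
    (hq : Subgroup.closure (Set.range q) ⊔ M = ⊤) (j : Fin h) {n : Q}
    (hn : n ∈ ⁅Subgroup.normalClosure (Set.range p), (⊤ : Subgroup Q)⁆) :
    Rel p q p (update q j (q j * n)) := by
  have hcM : ∀ (i : Fin g) (c : Q), c * p i * c⁻¹ ∈ M := fun i c =>
    Subgroup.Normal.conj_mem inferInstance _ (hp i) c
  let T : Subgroup Q :=
    { carrier := {n | n ∈ M ∧ ∀ q' : Fin h → Q, (∀ l, (q l)⁻¹ * q' l ∈ M) →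
        Rel p q' p (update q' j (q' j * n))}
      one_mem' := ⟨M.one_mem, fun q' _ => by
        rw [mul_one, update_eq_self]
        exact Rel.refl p q'⟩
      mul_mem' := by
        rintro a b ⟨ha, ha'⟩ ⟨hb, hb'⟩
        refine ⟨M.mul_mem ha hb, fun q' hq' => ?_⟩
        have h1 := ha' q' hq'
        have h2 := hb' (update q' j (q' j * a)) (fun l => by
          by_cases hl : l = j
          · subst hl
            rw [update_self, ← mul_assoc]
            exact M.mul_mem (hq' l) ha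
          · rw [update_of_ne hl]
            exact hq' l)
        rw [update_self, update_idem, mul_assoc] at h2
        exact h1.trans h2
      inv_mem' := by
        rintro a ⟨ha, ha'⟩
        refine ⟨M.inv_mem ha, fun q' hq' => ?_⟩
        have h2 := ha' (update q' j (q' j * a⁻¹)) (fun l => by
          by_cases hl : l = j
          · subst hl
            rw [update_self, ← mul_assoc]
            exact M.mul_mem (hq' l) (M.inv_mem ha)
          · rw [update_of_ne hl]
            exact hq' l)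
        rw [update_self, update_idem, inv_mul_cancel_right, update_eq_self] at h2
        exact h2.symm }
  have hTe : ∀ (i : Fin g) (l : Fin h) (c : Q), ⁅c * p i * c⁻¹, q l⁆ ∈ T := by
    intro i l c
    have h2 : q l * (c * p i * c⁻¹)⁻¹ * (q l)⁻¹ ∈ M :=
      Subgroup.Normal.conj_mem inferInstance _ (M.inv_mem (hcM i c)) (q l)
    have e : ⁅c * p i * c⁻¹, q l⁆ = (c * p i * c⁻¹) * (q l * (c * p i * c⁻¹)⁻¹ * (q l)⁻¹) := by
      simp only [commutatorElement_def]
      group
    refine ⟨?_, fun q' hq' => ?_⟩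
    · rw [e]
      exact M.mul_mem (hcM i c) h2
    · have h3 := abm_step (p := p) (q := q') hM hp (abm_coset hq hq') i j l c
      have e2 : ⁅c * p i * c⁻¹, q' l⁆ = ⁅c * p i * c⁻¹, q l⁆ := by
        have e3 : ⁅c * p i * c⁻¹, q' l⁆ = (c * p i * c⁻¹) *
            (q l * (((q l)⁻¹ * q' l) * (c * p i * c⁻¹)⁻¹ * ((q l)⁻¹ * q' l)⁻¹) * (q l)⁻¹) := by
          simp only [commutatorElement_def]
          group
        rw [e3, e, abm_cm hM (hq' l) (M.inv_mem (hcM i c)), mul_inv_cancel_right]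
      rw [e2] at h3
      exact h3
  have hsub : Set.range p ⊆ M := by
    rintro _ ⟨i, rfl⟩
    exact hp i
  have hPM : Subgroup.normalClosure (Set.range p) ≤ M := Subgroup.normalClosure_le_normal hsub
  have hgen : ∀ m ∈ Subgroup.normalClosure (Set.range p), ∀ s ∈ Set.range q, ⁅m, s⁆ ∈ T := by
    rintro m hm _ ⟨l, rfl⟩
    refine abm_gen hM (Set.range p) hsub (q l) ?_ m hm
    rintro _ ⟨i, rfl⟩ c
    exact hTe i l c
  have hfin := abm_calc hM hPM (Set.range q) hq hgen
  exact (hfin hn).2 q fun l => by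
    rw [inv_mul_cancel]
    exact M.one_mem

/-- Lemma 1. Proof: `abm_one` for one coordinate after the other (induction over a finite set `J`
of indices for `fun j => if j ∈ J then q j * n j else q j`); the hypotheses are preserved because
`n j ∈ M`. -/
theorem abm {M : Subgroup Q} [M.Normal] (hM : ⁅M, M⁆ = ⊥) (hp : ∀ i, p i ∈ M)
    (hq : Subgroup.closure (Set.range q) ⊔ M = ⊤) (n : Fin h → Q)
    (hn : ∀ j, n j ∈ ⁅Subgroup.normalClosure (Set.range p), (⊤ : Subgroup Q)⁆) :
    Rel p q p (fun j => q j * n j) := by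
  have hsub : Set.range p ⊆ M := by
    rintro _ ⟨i, rfl⟩
    exact hp i
  have hPM : Subgroup.normalClosure (Set.range p) ≤ M := Subgroup.normalClosure_le_normal hsub
  have hnM : ∀ j, n j ∈ M := fun j => hPM (Subgroup.commutator_le_left _ _ (hn j))
  have key : ∀ J : Finset (Fin h), Rel p q p (fun j => if j ∈ J then q j * n j else q j) := by
    intro J
    induction J using Finset.induction_on with
    | empty =>
      have e : (fun j => if j ∈ (∅ : Finset (Fin h)) then q j * n j else q j) = q := by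
        funext j
        simp
      rw [e]
      exact Rel.refl p q
    | insert a J ha ih =>
      have hq' : ∀ l, (q l)⁻¹ * (fun j => if j ∈ J then q j * n j else q j) l ∈ M := by
        intro l
        by_cases hl : l ∈ J
        · simp only [if_pos hl, inv_mul_cancel_left]
          exact hnM l
        · simp only [if_neg hl, inv_mul_cancel]
          exact M.one_mem
      have h1 := abm_one (p := p) hM hp (abm_coset hq hq') a (hn a)
      have e : update (fun j => if j ∈ J then q j * n j else q j) a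
          ((fun j => if j ∈ J then q j * n j else q j) a * n a) =
          fun j => if j ∈ insert a J then q j * n j else q j := by
        funext j
        by_cases hj : j = a
        · subst hj
          simp [ha]
        · simp [hj]
      rw [e] at h1
      exact ih.trans h1
  have h1 := key Finset.univ
  simpa using h1

end

end Pool.Agent.MPb5eQ
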