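import Pool.Agent.Lib.MP_b5ead8_al_Q.Top
import Pool.Agent.Lib.MP_b5ead8_al_Q.AbZ
import Pool.Agent.Lib.MP_b5ead8_al_AC.FinalAll

/-!
# MP_b5ead8_al, project SolvableQuotients: assembly
-/

set_option autoImplicit false

namespace Pool.Agent.MPb5eQ

open Function

private theorem Asm_sum {A B : Type} (θ : MulAut (FreeGroup A)) (γ : MulAut (FreeGroup B)) :
    ∃ Θ : MulAut (FreeGroup (A ⊕ B)),
      (∀ w, Θ (FreeGroup.map Sum.inl w) = FreeGroup.map Sum.inl (θ w)) ∧
      ∀ w, Θ (FreeGroup.map Sum.inr w) = FreeGroup.map Sum.inr (γ w) := by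
  have key : ∀ (θ' : MulAut (FreeGroup A)) (γ' : MulAut (FreeGroup B)),
      (∀ w, FreeGroup.lift (Sum.elim (fun a => FreeGroup.map Sum.inl (θ' (FreeGroup.of a)))
        (fun b => FreeGroup.map Sum.inr (γ' (FreeGroup.of b)))) (FreeGroup.map Sum.inl w) =
          (FreeGroup.map Sum.inl (θ' w) : FreeGroup (A ⊕ B))) ∧
      ∀ w, FreeGroup.lift (Sum.elim (fun a => FreeGroup.map Sum.inl (θ' (FreeGroup.of a)))
        (fun b => FreeGroup.map Sum.inr (γ' (FreeGroup.of b)))) (FreeGroup.map Sum.inr w) =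
          (FreeGroup.map Sum.inr (γ' w) : FreeGroup (A ⊕ B)) := by
    intro θ' γ'
    constructor
    · intro w
      have h1 : (FreeGroup.lift (Sum.elim
          (fun a => FreeGroup.map Sum.inl (θ' (FreeGroup.of a)))
          (fun b => FreeGroup.map Sum.inr (γ' (FreeGroup.of b)))) :
            FreeGroup (A ⊕ B) →* FreeGroup (A ⊕ B)).comp (FreeGroup.map Sum.inl) =
          (FreeGroup.map Sum.inl).comp θ'.toMonoidHom := by
        ext a
        simp
      exact DFunLike.congr_fun h1 w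
    · intro w
      have h1 : (FreeGroup.lift (Sum.elim
          (fun a => FreeGroup.map Sum.inl (θ' (FreeGroup.of a)))
          (fun b => FreeGroup.map Sum.inr (γ' (FreeGroup.of b)))) :
            FreeGroup (A ⊕ B) →* FreeGroup (A ⊕ B)).comp (FreeGroup.map Sum.inr) =
          (FreeGroup.map Sum.inr).comp γ'.toMonoidHom := by
        ext a
        simp
      exact DFunLike.congr_fun h1 w
  let f : MulAut (FreeGroup A) → MulAut (FreeGroup B) →
      (FreeGroup (A ⊕ B) →* FreeGroup (A ⊕ B)) := fun θ' γ' =>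
    FreeGroup.lift (Sum.elim (fun a => FreeGroup.map Sum.inl (θ' (FreeGroup.of a)))
      (fun b => FreeGroup.map Sum.inr (γ' (FreeGroup.of b))))
  have hinv : ∀ (θ' : MulAut (FreeGroup A)) (γ' : MulAut (FreeGroup B)),
      (f θ' γ').comp (f θ'⁻¹ γ'⁻¹) = MonoidHom.id _ := by
    intro θ' γ'
    refine FreeGroup.ext_hom _ _ fun x => ?_
    rcases x with a | b
    · have h1 : f θ'⁻¹ γ'⁻¹ (FreeGroup.of (Sum.inl a)) =
          FreeGroup.map Sum.inl (θ'⁻¹ (FreeGroup.of a)) := by
        simp [f]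
      rw [MonoidHom.comp_apply, h1, (key θ' γ').1]
      simp
    · have h1 : f θ'⁻¹ γ'⁻¹ (FreeGroup.of (Sum.inr b)) =
          FreeGroup.map Sum.inr (γ'⁻¹ (FreeGroup.of b)) := by
        simp [f]
      rw [MonoidHom.comp_apply, h1, (key θ' γ').2]
      simp
  have hinv' : (f θ⁻¹ γ⁻¹).comp (f θ γ) = MonoidHom.id _ := by
    have := hinv θ⁻¹ γ⁻¹
    rwa [inv_inv, inv_inv] at this
  exact ⟨MonoidHom.toMulEquiv (f θ γ) (f θ⁻¹ γ⁻¹) hinv' (hinv θ γ), (key θ γ).1, (key θ γ).2⟩

private theorem Asm_comm {G H : Type} [Group G] [Group H] (f : G →* H) {x : G}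
    (hx : x ∈ commutator G) : f x ∈ commutator H := by
  have h1 : f x ∈ (commutator G).map f := Subgroup.mem_map_of_mem f hx
  rw [commutator_def, Subgroup.map_commutator] at h1
  rw [commutator_def]
  exact Subgroup.commutator_mono le_top le_top h1

/-- The theorem.

Proof. `exists_normal_form` (namespace `Pool.Agent.MPb5ead8`) gives `β0`, `q0`;
`normalClosure_of_surjective` and `abz` give `γ`; let `β1` be `β0` composed with the automorphism
`x_i ↦ x_i`, `y_j ↦ γ y_j` (`FreeGroup.map Sum.inr (γ (of j))`; compare `NE.sum_right`). Then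
`π (β1 x_i) = (a_i, p_i)`, `π (β1 y_j) = (1, q_j)` with `(b_j)⁻¹ q_j ∈ commutator`. The state
`(φ ∘ p, φ ∘ q)` and `φ ∘ of` satisfy `St` (surjectivity of `π` and `φ`). `main_prop` gives an
admissible `β2`, with `θ`. So `π (β1 (β2 x_i))` has the coordinates `θ a_i` and, after `φ`, `1`, and
`π (β1 (β2 y_j))` has the coordinates `1` and, after `φ`, `φ b_j`. (The first coordinate of `π ∘
β1` is
`pr`.) Compose with the automorphism `β3`: `x_i ↦ FreeGroup.map Sum.inl (θ⁻¹ a_i)`, `y_j ↦ y_j`.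
Then `(id × φ) ∘ π ∘ β = (id × φ) ∘ π'` for `β = β1 β2 β3`; `α = β⁻¹`. -/
theorem fin_quot (g h : ℕ) (hg : 2 ≤ g)
    (π : FreeGroup (Fin g ⊕ Fin h) →* FreeGroup (Fin g) × FreeGroup (Fin h))
    (hπ : Surjective π) (Q : Type) [Group Q] (φ : FreeGroup (Fin h) →* Q) (hφ : Surjective φ)
    (hQ : SerFrom (⊥ : Subgroup Q)) :
    ∃ α : MulAut (FreeGroup (Fin g ⊕ Fin h)),
      ((MonoidHom.id (FreeGroup (Fin g))).prodMap φ).comp π =
      ((MonoidHom.id (FreeGroup (Fin g))).prodMap φ).comp ((FreeGroup.lift (Sum.elim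
        (fun i : Fin g => ((FreeGroup.of i, 1) : FreeGroup (Fin g) × FreeGroup (Fin h)))
        (fun j : Fin h => ((1, FreeGroup.of j) : FreeGroup (Fin g) × FreeGroup (Fin h))))).comp
        α.toMonoidHom) := by
  obtain ⟨β0, q0, hp0, hq0⟩ := Pool.Agent.MPb5ead8.exists_normal_form π hπ
  have hnc := Pool.Agent.MPb5ead8.normalClosure_of_surjective π hπ β0 q0 hp0 hq0
  obtain ⟨γ, hγ⟩ := abz q0 hnc
  obtain ⟨Γ, hΓ1, hΓ2⟩ := Asm_sum (1 : MulAut (FreeGroup (Fin g))) γ
  -- the state
  obtain ⟨p, hp⟩ : ∃ p : Fin g → FreeGroup (Fin h),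
      p = fun i => (π (β0 (FreeGroup.of (Sum.inl i)))).2 := ⟨_, rfl⟩
  obtain ⟨q, hq⟩ : ∃ q : Fin h → FreeGroup (Fin h),
      q = fun j => FreeGroup.lift q0 (γ (FreeGroup.of j)) := ⟨_, rfl⟩
  have hx : ∀ i, π (β0 (Γ (FreeGroup.of (Sum.inl i)))) = (FreeGroup.of i, p i) := by
    intro i
    have h1 := hΓ1 (FreeGroup.of i)
    rw [FreeGroup.map.of, MulAut.one_apply, FreeGroup.map.of] at h1
    rw [h1, hp]
    exact Prod.ext (hp0 i) rfl
  have hy : ∀ j, π (β0 (Γ (FreeGroup.of (Sum.inr j)))) = (1, q j) := by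
    intro j
    have h1 := hΓ2 (FreeGroup.of j)
    rw [FreeGroup.map.of] at h1
    have h2 : (π.comp β0.toMonoidHom).comp (FreeGroup.map Sum.inr) =
        (MonoidHom.inr (FreeGroup (Fin g)) (FreeGroup (Fin h))).comp (FreeGroup.lift q0) := by
      refine FreeGroup.ext_hom _ _ fun k => ?_
      have h3 := hq0 k
      simpa using h3
    have h4 := DFunLike.congr_fun h2 (γ (FreeGroup.of j))
    rw [h1, hq]
    exact h4
  have hfst : ∀ z, (π (β0 (Γ z))).1 = pr g h z := by
    intro z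
    have h1 : (MonoidHom.fst _ _).comp ((π.comp β0.toMonoidHom).comp Γ.toMonoidHom) =
        pr g h := by
      refine FreeGroup.ext_hom _ _ fun k => ?_
      rcases k with i | j
      · have := congrArg Prod.fst (hx i)
        simpa [pr] using this
      · have := congrArg Prod.fst (hy j)
        simpa [pr] using this
    exact DFunLike.congr_fun h1 z
  have hsnd : ∀ z, φ (π (β0 (Γ z))).2 = ev (fun i => φ (p i)) (fun j => φ (q j)) z := by
    intro z
    have h1 : φ.comp ((MonoidHom.snd _ _).comp ((π.comp β0.toMonoidHom).comp Γ.toMonoidHom)) =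
        ev (fun i => φ (p i)) (fun j => φ (q j)) := by
      refine FreeGroup.ext_hom _ _ fun k => ?_
      rcases k with i | j
      · have := congrArg (fun x => φ x.2) (hx i)
        simpa [ev] using this
      · have := congrArg (fun x => φ x.2) (hy j)
        simpa [ev] using this
    exact DFunLike.congr_fun h1 z
  have hSt : St (fun j => φ (FreeGroup.of j)) (fun i => φ (p i)) (fun j => φ (q j)) := by
    refine ⟨?_, ?_, ?_⟩
    · have h1 : Set.range (fun j => φ (FreeGroup.of j)) =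
          φ '' Set.range (FreeGroup.of : Fin h → FreeGroup (Fin h)) := by
        rw [← Set.range_comp]
        rfl
      rw [h1, ← MonoidHom.map_closure, FreeGroup.closure_range_of, ← MonoidHom.range_eq_map,
        MonoidHom.range_eq_top]
      exact hφ
    · have h1 : Set.range (fun i => φ (p i)) ∪ Set.range (fun j => φ (q j)) =
          Set.range (Sum.elim (fun i => φ (p i)) (fun j => φ (q j))) :=
        (Set.Sum.elim_range _ _).symm
      rw [h1, ← FreeGroup.range_lift_eq_closure, MonoidHom.range_eq_top]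
      intro x
      obtain ⟨u, rfl⟩ := hφ x
      obtain ⟨z, hz⟩ := hπ (1, u)
      refine ⟨Γ⁻¹ (β0⁻¹ z), ?_⟩
      have h2 := hsnd (Γ⁻¹ (β0⁻¹ z))
      rw [MulAut.apply_inv_self, MulAut.apply_inv_self, hz] at h2
      exact h2.symm
    · intro j
      have h1 := Asm_comm φ (hγ j)
      rw [map_mul, map_inv] at h1
      rw [hq]
      exact h1
  obtain ⟨β2, ⟨⟨θ, hθ⟩, -⟩, h1, h2⟩ := main_prop hg hQ hSt
  obtain ⟨β3, h31, h32⟩ := Asm_sum (θ⁻¹) (1 : MulAut (FreeGroup (Fin h)))
  have hinl : ∀ w, ev (fun i => φ (p i)) (fun j => φ (q j)) (β2 (FreeGroup.map Sum.inl w)) =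
      1 := by
    intro w
    have h4 : (ev (fun i => φ (p i)) (fun j => φ (q j))).comp (β2.toMonoidHom.comp
        (FreeGroup.map Sum.inl)) = (1 : FreeGroup (Fin g) →* Q) := by
      refine FreeGroup.ext_hom _ _ fun i => ?_
      have := (h1 i).symm
      simpa using this
    exact DFunLike.congr_fun h4 w
  have hprl : ∀ w, pr g h (FreeGroup.map Sum.inl w) = w := by
    intro w
    have h4 : (pr g h).comp (FreeGroup.map Sum.inl) = MonoidHom.id _ := by
      refine FreeGroup.ext_hom _ _ fun i => ?_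
      simp [pr]
    exact DFunLike.congr_fun h4 w
  have key : ((((MonoidHom.id (FreeGroup (Fin g))).prodMap φ).comp π).comp
      ((β0.toMonoidHom.comp Γ.toMonoidHom).comp (β2.toMonoidHom.comp β3.toMonoidHom))) =
      ((MonoidHom.id (FreeGroup (Fin g))).prodMap φ).comp (FreeGroup.lift (Sum.elim
        (fun i : Fin g => ((FreeGroup.of i, 1) : FreeGroup (Fin g) × FreeGroup (Fin h)))
        (fun j : Fin h => ((1, FreeGroup.of j) : FreeGroup (Fin g) × FreeGroup (Fin h))))) := by
    refine FreeGroup.ext_hom _ _ fun k => ?_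
    rcases k with i | j
    · have e1 : β3 (FreeGroup.of (Sum.inl i)) = FreeGroup.map Sum.inl (θ⁻¹ (FreeGroup.of i)) := by
        have := h31 (FreeGroup.of i)
        rwa [FreeGroup.map.of] at this
      have e2 : (π (β0 (Γ (β2 (β3 (FreeGroup.of (Sum.inl i))))))).1 = FreeGroup.of i := by
        rw [hfst, hθ, e1, hprl, MulAut.apply_inv_self]
      have e3 : φ (π (β0 (Γ (β2 (β3 (FreeGroup.of (Sum.inl i))))))).2 = 1 := by
        rw [hsnd, e1, hinl]
      refine Prod.ext ?_ ?_
      · simpa using e2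
      · simpa using e3
    · have e1 : β3 (FreeGroup.of (Sum.inr j)) = FreeGroup.of (Sum.inr j) := by
        have := h32 (FreeGroup.of j)
        rwa [FreeGroup.map.of, MulAut.one_apply, FreeGroup.map.of] at this
      have e2 : (π (β0 (Γ (β2 (β3 (FreeGroup.of (Sum.inr j))))))).1 = 1 := by
        have e4 : pr g h (FreeGroup.of (Sum.inr j)) = 1 := by simp [pr]
        rw [hfst, hθ, e1, e4, map_one]
      have e3 : φ (π (β0 (Γ (β2 (β3 (FreeGroup.of (Sum.inr j))))))).2 = φ (FreeGroup.of j) := by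
        rw [hsnd, e1]
        exact (h2 j).symm
      refine Prod.ext ?_ ?_
      · simpa using e2
      · simpa using e3
  refine ⟨(β0 * Γ * (β2 * β3))⁻¹, ?_⟩
  refine MonoidHom.ext fun z => ?_
  have h5 := DFunLike.congr_fun key ((β0 * Γ * (β2 * β3))⁻¹ z)
  have h6 : ((β0.toMonoidHom.comp Γ.toMonoidHom).comp (β2.toMonoidHom.comp β3.toMonoidHom))
      ((β0 * Γ * (β2 * β3))⁻¹ z) = z :=
    MulAut.apply_inv_self _ (β0 * Γ * (β2 * β3)) z
  rw [MonoidHom.comp_apply, h6] at h5
  exact h5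

end Pool.Agent.MPb5eQ
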