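import Pool.Agent.Lib.MP_b5ead8_al_Q.Mv2

/-!
# MP_b5ead8_al, project SolvableQuotients: Lemmas 2 and 3, the guard and central subgroups
-/

set_option autoImplicit false

namespace Pool.Agent.MPb5eQ

open Function
open scoped commutatorElement

/-- If the elements of a set `S` generate `Q` and a subgroup `A` contains all `⁅c, s⁆`, `c ∈ Q`,
`s ∈ S`, `s ≠ t`, where `t` is a fixed element, then `A` contains the commutator subgroup.

Proof. `N = Subgroup.closure {⁅c, s⁆ | c, s ∈ S, s ≠ t}` is normal
(`d * ⁅c, s⁆ * d⁻¹ = ⁅d * c, s⁆ * ⁅d, s⁆⁻¹`), `N ≤ A`; in `Q ⧸ N` the images of the elements of `S`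
generate and commute pairwise, so `Q ⧸ N` is commutative (`Subgroup.closure_induction₂` or
`Subgroup.closureCommGroupOfComm`), and `commutator Q ≤ N`. -/
theorem com_le {Q : Type} [Group Q] (S : Set Q) (hS : Subgroup.closure S = ⊤) (t : Q)
    (A : Subgroup Q) (hA : ∀ c : Q, ∀ s ∈ S, s ≠ t → ⁅c, s⁆ ∈ A) : commutator Q ≤ A := by
  classical
  let N : Subgroup Q := Subgroup.closure {x | ∃ c : Q, ∃ s ∈ S, s ≠ t ∧ ⁅c, s⁆ = x}
  have hgen : ∀ c : Q, ∀ s ∈ S, s ≠ t → ⁅c, s⁆ ∈ N := fun c s hs hst =>
    Subgroup.subset_closure ⟨c, s, hs, hst, rfl⟩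
  have hNA : N ≤ A := by
    rw [Subgroup.closure_le]
    rintro _ ⟨c, s, hs, hst, rfl⟩
    exact hA c s hs hst
  have hN : N.Normal := by
    refine ⟨fun x hx d => ?_⟩
    refine Subgroup.closure_induction (p := fun x _ => d * x * d⁻¹ ∈ N) ?_ ?_ ?_ ?_ hx
    · rintro _ ⟨c, s, hs, hst, rfl⟩
      have h1 : d * ⁅c, s⁆ * d⁻¹ = ⁅d * c, s⁆ * ⁅d, s⁆⁻¹ := by
        simp only [commutatorElement_def]
        group
      rw [h1]
      exact N.mul_mem (hgen _ s hs hst) (N.inv_mem (hgen _ s hs hst))
    · simp only [mul_one, mul_inv_cancel]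
      exact N.one_mem
    · intro x y _ _ hx hy
      have h1 : d * (x * y) * d⁻¹ = (d * x * d⁻¹) * (d * y * d⁻¹) := by group
      rw [h1]
      exact N.mul_mem hx hy
    · intro x _ hx
      have h1 : d * x⁻¹ * d⁻¹ = (d * x * d⁻¹)⁻¹ := by group
      rw [h1]
      exact N.inv_mem hx
  have hcomm : ∀ a b : Q, ⁅a, b⁆ ∈ N ↔ Commute (QuotientGroup.mk' N a) (QuotientGroup.mk' N b) := by
    intro a b
    rw [← commutatorElement_eq_one_iff_commute, ← map_commutatorElement, QuotientGroup.mk'_apply,
      QuotientGroup.eq_one_iff]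
  have h2 : ∀ s ∈ S, s ≠ t → ∀ c : Q, Commute (QuotientGroup.mk' N c) (QuotientGroup.mk' N s) :=
    fun s hs hst c => (hcomm c s).1 (hgen c s hs hst)
  have h3 : ∀ c : Q, Commute (QuotientGroup.mk' N c) (QuotientGroup.mk' N t) := by
    intro c
    have hc : c ∈ Subgroup.closure S := by
      rw [hS]
      exact Subgroup.mem_top c
    refine Subgroup.closure_induction
      (p := fun c _ => Commute (QuotientGroup.mk' N c) (QuotientGroup.mk' N t)) ?_ ?_ ?_ ?_ hc
    · intro s hs
      by_cases hst : s = t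
      · rw [hst]
      · exact (h2 s hs hst t).symm
    · rw [map_one]
      exact Commute.one_left _
    · intro x y _ _ hx hy
      rw [map_mul]
      exact hx.mul_left hy
    · intro x _ hx
      rw [map_inv]
      exact hx.inv_left
  have h4 : ∀ d c : Q, Commute (QuotientGroup.mk' N c) (QuotientGroup.mk' N d) := by
    intro d c
    have hd : d ∈ Subgroup.closure S := by
      rw [hS]
      exact Subgroup.mem_top d
    refine Subgroup.closure_induction
      (p := fun d _ => Commute (QuotientGroup.mk' N c) (QuotientGroup.mk' N d)) ?_ ?_ ?_ ?_ hd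
    · intro s hs
      by_cases hst : s = t
      · rw [hst]
        exact h3 c
      · exact h2 s hs hst c
    · rw [map_one]
      exact Commute.one_right _
    · intro x y _ _ hx hy
      rw [map_mul]
      exact hx.mul_right hy
    · intro x _ hx
      rw [map_inv]
      exact hx.inv_right
  refine le_trans ?_ hNA
  rw [commutator_def, Subgroup.commutator_le]
  intro a _ b _
  exact (hcomm a b).2 (h4 b a)

section

variable {g h : ℕ} {Q : Type} [Group Q] {p : Fin g → Q} {b q : Fin h → Q}

/-- Lemma 2 (guard).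

Proof. Let `i1 = ⟨0, _⟩`, `i2 = ⟨1, _⟩`. For `u : Q` let `Q u = update q j (q j * u)`. For fixed
`u` all
states `(r, Q u)` with `r i2 = q j` are equivalent (`Rel.guard` with `i0 = i2`: the subgroup
generated
by `q j` and the entries of `Q u` contains all `q l`). So the relation `R u u'` := all states
`(r, Q u)`, `(r', Q u')` with `r i2 = r' i2 = q j` are equivalent, is an equivalence relation, and
`A = {n | ∀ u, R u (u * n)}` is a subgroup. `⁅c, q l⁆ ∈ A` for `l ≠ j`: take `r` with `r i1 = c` and
use `Rel.qcom` (`(Q u) l = q l`). By `com_le` with `t = q j` (if `q l = q j` there is nothing to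
check)
`n ∈ A`. Finally `Rel p q (fun _ => q j) q` by `Rel.free`, and `Q 1 = q`. -/
theorem com_move (hg : 2 ≤ g) (hq : Subgroup.closure (Set.range q) = ⊤) (j : Fin h) {n : Q}
    (hn : n ∈ commutator Q) : ∃ p' : Fin g → Q, Rel p q p' (update q j (q j * n)) := by
  let i1 : Fin g := ⟨0, by omega⟩
  let i2 : Fin g := ⟨1, by omega⟩
  have hi : i1 ≠ i2 := by
    intro h12
    have := congrArg Fin.val h12
    simp [i1, i2] at this
  let qu : Q → Fin h → Q := fun u => update q j (q j * u)
  have hquj : ∀ u, qu u j = q j * u := fun u => by simp [qu]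
  have hqul : ∀ u, ∀ l, l ≠ j → qu u l = q l := fun u l hl => by simp [qu, hl]
  have hguard : ∀ u, ∀ r r' : Fin g → Q, r i2 = q j → r' i2 = q j → Rel r (qu u) r' (qu u) := by
    intro u r r' hr hr'
    refine Rel.guard i2 r' (hr'.trans hr.symm) ?_
    rw [eq_top_iff, ← hq, Subgroup.closure_le]
    rintro _ ⟨l, rfl⟩
    by_cases hl : l = j
    · rw [hl, ← hr]
      exact Subgroup.subset_closure (Set.mem_insert _ _)
    · rw [← hqul u l hl]
      exact Subgroup.subset_closure (Set.mem_insert_of_mem _ ⟨l, rfl⟩)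
  let R : Q → Q → Prop := fun u u' => ∀ r r' : Fin g → Q, r i2 = q j → r' i2 = q j →
    Rel r (qu u) r' (qu u')
  let A : Subgroup Q :=
    { carrier := {n | ∀ u, R u (u * n)}
      one_mem' := by
        intro u r r' hr hr'
        rw [mul_one]
        exact hguard u r r' hr hr'
      mul_mem' := by
        intro x y hx hy u r r' hr hr'
        have h1 := hx u r r hr hr
        have h2 := hy (u * x) r r' hr hr'
        rw [mul_assoc] at h2
        exact h1.trans h2
      inv_mem' := by
        intro x hx u r r' hr hr'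
        have h1 := hx (u * x⁻¹) r' r hr' hr
        rw [inv_mul_cancel_right] at h1
        exact h1.symm }
  have hA : commutator Q ≤ A := by
    refine com_le (Set.range q) hq (q j) A ?_
    rintro c _ ⟨l, rfl⟩ hl
    have hlj : l ≠ j := fun h0 => hl (by rw [h0])
    intro u r r' hr hr'
    have hr1 : (update r i1 c) i2 = q j := by
      rw [update_of_ne hi.symm]
      exact hr
    have h1 := hguard u r (update r i1 c) hr hr1
    have h2 : Rel (update r i1 c) (qu u) (update r i1 c) (qu (u * ⁅c, q l⁆)) := by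
      have h3 := Rel.qcom (p := update r i1 c) (q := qu u) i1 hlj
      rw [update_self, hqul u l hlj, hquj u] at h3
      have h4 : update (qu u) j (q j * u * ⁅c, q l⁆) = qu (u * ⁅c, q l⁆) := by
        simp only [qu, update_idem, mul_assoc]
      rwa [h4] at h3
    have h3 := hguard (u * ⁅c, q l⁆) (update r i1 c) r' hr1 hr'
    exact (h1.trans h2).trans h3
  refine ⟨fun _ => q j, ?_⟩
  have h1 : Rel p q (fun _ => q j) q := Rel.free _ hq
  have h2 := hA hn 1 (fun _ => q j) (fun _ => q j) rfl rfl
  have h3 : qu 1 = q := by simp [qu]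
  rw [h3, one_mul] at h2
  exact h1.trans h2

/-- If `Z` is central, `q j ∈ b j * Z`, `q j ∈ b j * Q'`, and `p i ∈ Z`-free generation: the `q j`
generate `Q`. Here: if the `q j` generate `Q` modulo `Z` then they generate `Q`.

Proof. `⟨q⟩ Z = ⊤`, so `commutator Q ≤ ⟨q⟩` (a commutator of `k z` and `k' z'` is `⁅k, k'⁆`), and
`b j = q j * ((b j)⁻¹ * q j)⁻¹ ∈ ⟨q⟩`. -/
theorem cen_gen {Z : Subgroup Q} (hZ : Z ≤ Subgroup.center Q)
    (hb : Subgroup.closure (Set.range b) = ⊤) (hc : ∀ j, (b j)⁻¹ * q j ∈ commutator Q)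
    (hq : Subgroup.closure (Set.range q) ⊔ Z = ⊤) : Subgroup.closure (Set.range q) = ⊤ := by
  have hZc : ∀ z ∈ Z, ∀ x : Q, x * z = z * x := fun z hz x =>
    Subgroup.mem_center_iff.1 (hZ hz) x
  have hZn : Z.Normal := by
    refine ⟨fun z hz x => ?_⟩
    rw [hZc z hz x, mul_inv_cancel_right]
    exact hz
  have hmem : ∀ x : Q, ∃ k ∈ Subgroup.closure (Set.range q), ∃ z ∈ Z, k * z = x := by
    intro x
    have hx : x ∈ Subgroup.closure (Set.range q) ⊔ Z := by
      rw [hq]
      exact Subgroup.mem_top x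
    rw [← SetLike.mem_coe, Subgroup.mul_normal] at hx
    obtain ⟨k, hk, z, hz, hkz⟩ := hx
    exact ⟨k, hk, z, hz, hkz⟩
  have hcom : commutator Q ≤ Subgroup.closure (Set.range q) := by
    rw [commutator_def, Subgroup.commutator_le]
    intro a _ c _
    obtain ⟨k, hk, z, hz, rfl⟩ := hmem a
    obtain ⟨k', hk', z', hz', rfl⟩ := hmem c
    have h1 : ⁅k * z, k' * z'⁆ = ⁅k, k'⁆ := by
      rw [commutatorElement_def, commutatorElement_def]
      have e1 : k * z * (k' * z') = k * k' * (z * z') := by
        rw [mul_assoc k z, ← mul_assoc z k' z', ← hZc z hz k', mul_assoc k' z z', ← mul_assoc]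
      have e2 : k' * z' * (k * z) = k' * k * (z * z') := by
        rw [mul_assoc k' z', ← mul_assoc z' k z, ← hZc z' hz' k, mul_assoc k z' z, ← mul_assoc,
          hZc z hz z']
      have e3 : k * z * (k' * z') * (k * z)⁻¹ * (k' * z')⁻¹ =
          (k * z * (k' * z')) * (k' * z' * (k * z))⁻¹ := by group
      have e4 : k * k' * k⁻¹ * k'⁻¹ = (k * k') * (k' * k)⁻¹ := by group
      rw [e3, e4, e1, e2]
      group
    rw [h1, commutatorElement_def]
    exact Subgroup.mul_mem _ (Subgroup.mul_mem _ (Subgroup.mul_mem _ hk hk')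
      (Subgroup.inv_mem _ hk)) (Subgroup.inv_mem _ hk')
  rw [eq_top_iff, ← hb, Subgroup.closure_le]
  rintro _ ⟨j, rfl⟩
  have h1 : b j = q j * ((b j)⁻¹ * q j)⁻¹ := by group
  rw [SetLike.mem_coe, h1]
  exact Subgroup.mul_mem _ (Subgroup.subset_closure ⟨j, rfl⟩) (Subgroup.inv_mem _ (hcom (hc j)))

/-- Lemma 3 (central subgroups).

Proof. `⟨q⟩ Z = ⊤` from `St.gs`. By induction over a finite set `J` of indices there is `p'` with
`Rel p q p' (fun j => if j ∈ J then b j else q j)`: the intermediate tuple `q'` satisfies the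
hypotheses of `cen_gen` (`q' j ∈ q j * Z`), so `com_move` with `n = (q j)⁻¹ * b j ∈ commutator Q`
makes
the next step. For `J = univ`: `Rel p q p' b`, and `Rel.free`. -/
theorem cen (hg : 2 ≤ g) {Z : Subgroup Q} (hZ : Z ≤ Subgroup.center Q) (hs : St b p q)
    (hp : ∀ i, p i ∈ Z) (hq : ∀ j, (b j)⁻¹ * q j ∈ Z) : Rel p q (fun _ => 1) b := by
  classical
  have key : ∀ J : Finset (Fin h), ∃ p' : Fin g → Q,
      Rel p q p' (fun j => if j ∈ J then b j else q j) := by
    intro J
    induction J using Finset.induction_on with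
    | empty =>
      refine ⟨p, ?_⟩
      simp only [Finset.notMem_empty, if_false]
      exact Rel.refl p q
    | insert j J hj ih =>
      obtain ⟨p', hp'⟩ := ih
      have hs' := hs.rel hp'
      have hgen : Subgroup.closure (Set.range fun j => if j ∈ J then b j else q j) = ⊤ := by
        refine cen_gen hZ hs.gb hs'.cm ?_
        rw [eq_top_iff, ← hs.gb, Subgroup.closure_le]
        rintro _ ⟨l, rfl⟩
        by_cases hl : l ∈ J
        · refine Subgroup.mem_sup_left (Subgroup.subset_closure ⟨l, ?_⟩)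
          simp [hl]
        · have h1 : b l = q l * ((b l)⁻¹ * q l)⁻¹ := by group
          rw [SetLike.mem_coe, h1]
          refine Subgroup.mul_mem _ (Subgroup.mem_sup_left (Subgroup.subset_closure ⟨l, ?_⟩))
            (Subgroup.mem_sup_right (Subgroup.inv_mem _ (hq l)))
          simp [hl]
      have hqj : (if j ∈ J then b j else q j) = q j := by simp [hj]
      obtain ⟨p'', hp''⟩ := com_move (p := p') hg hgen j (n := (q j)⁻¹ * b j) (by
        have h1 : (q j)⁻¹ * b j = ((b j)⁻¹ * q j)⁻¹ := by group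
        rw [h1]
        exact Subgroup.inv_mem _ (hs.cm j))
      refine ⟨p'', hp'.trans ?_⟩
      rw [hqj, mul_inv_cancel_left] at hp''
      have h2 : update (fun j => if j ∈ J then b j else q j) j (b j) =
          fun l => if l ∈ insert j J then b l else q l := by
        funext l
        by_cases hl : l = j
        · subst hl
          simp
        · simp [hl]
      rwa [h2] at hp''
  obtain ⟨p', hp'⟩ := key Finset.univ
  simp only [Finset.mem_univ, if_true] at hp'
  exact hp'.trans (Rel.free _ hs.gb)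

end

end Pool.Agent.MPb5eQ
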