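import Pool.Agent.Lib.MP_b5ead8_al_Q.Abm

/-!
# MP_b5ead8_al, project SolvableQuotients: Lemma 4, noncentral minimal normal subgroups
-/

set_option autoImplicit false

namespace Pool.Agent.MPb5eQ

open Function
open scoped commutatorElement

private theorem chf_core {g h : ℕ} {Q : Type} [Group Q] {p : Fin g → Q} {b q : Fin h → Q}
    {M : Subgroup Q} [M.Normal] (hM : ⁅M, M⁆ = ⊥)
    (hmin : ∀ L : Subgroup Q, L.Normal → L ≤ M → L = ⊥ ∨ L = M) (hne : M ≠ ⊥)
    (hz : M ⊓ Subgroup.center Q = ⊥) (hb : Subgroup.closure (Set.range b) = ⊤)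
    (hqM : Subgroup.closure (Set.range q) ⊔ M = ⊤) (hp : ∀ i, p i ∈ M)
    (hq : ∀ j, (b j)⁻¹ * q j ∈ M) (h1 : ∃ i, p i ≠ 1) : Rel p q (fun _ => 1) b := by
  obtain ⟨i, hi⟩ := h1
  have hP : Subgroup.normalClosure (Set.range p) = M := by
    have hle : Subgroup.normalClosure (Set.range p) ≤ M := by
      apply Subgroup.normalClosure_le_normal
      rintro _ ⟨k, rfl⟩
      exact hp k
    rcases hmin _ Subgroup.normalClosure_normal hle with h0 | h0
    · exfalso
      apply hi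
      have h2 : p i ∈ Subgroup.normalClosure (Set.range p) :=
        Subgroup.subset_normalClosure ⟨i, rfl⟩
      rw [h0] at h2
      exact Subgroup.mem_bot.1 h2
    · exact h0
  have hC : ⁅M, (⊤ : Subgroup Q)⁆ = M := by
    rcases hmin _ (Subgroup.commutator_normal M ⊤) (Subgroup.commutator_le_left M ⊤) with h0 | h0
    · exfalso
      apply hne
      rw [eq_bot_iff, ← hz]
      refine le_inf le_rfl fun m hm => ?_
      rw [Subgroup.mem_center_iff]
      intro c
      have h2 : ⁅m, c⁆ ∈ ⁅M, (⊤ : Subgroup Q)⁆ :=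
        Subgroup.commutator_mem_commutator hm (Subgroup.mem_top c)
      rw [h0, Subgroup.mem_bot] at h2
      exact (commutatorElement_eq_one_iff_mul_comm.1 h2).symm
    · exact h0
  have h3 : Rel p q p (fun j => q j * ((q j)⁻¹ * b j)) := by
    refine abm hM hp hqM (fun j => (q j)⁻¹ * b j) fun j => ?_
    rw [hP, hC]
    have h4 := M.inv_mem (hq j)
    rwa [mul_inv_rev, inv_inv] at h4
  have h5 : (fun j => q j * ((q j)⁻¹ * b j)) = b := by
    funext j
    exact mul_inv_cancel_left _ _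
  rw [h5] at h3
  exact h3.trans (Rel.free _ hb)

/-- Lemma 4.

Proof. `⟨q⟩ M = ⊤` by `St.gs`. If all `p i = 1` then `⟨q⟩ = ⊤` and `Rel.free` replaces `p` by the
constant tuple `m`, `m ∈ M`, `m ≠ 1`; so we may assume `p i ≠ 1` for some `i`. Then
`Subgroup.normalClosure (Set.range p)` is a nontrivial normal subgroup in `M`, so it is `M`.
`⁅M, ⊤⁆ ≤ M` is normal and nontrivial (otherwise `M` is central), so it is `M`. `abm` with
`n j = (q j)⁻¹ * b j ∈ M` gives `Rel p q p b`; `Rel.free` for `b`. -/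
theorem chf {g h : ℕ} {Q : Type} [Group Q] {p : Fin g → Q} {b q : Fin h → Q} (hg : 1 ≤ g)
    {M : Subgroup Q} [M.Normal] (hM : ⁅M, M⁆ = ⊥)
    (hmin : ∀ L : Subgroup Q, L.Normal → L ≤ M → L = ⊥ ∨ L = M) (hne : M ≠ ⊥)
    (hz : M ⊓ Subgroup.center Q = ⊥) (hs : St b p q) (hp : ∀ i, p i ∈ M)
    (hq : ∀ j, (b j)⁻¹ * q j ∈ M) : Rel p q (fun _ => 1) b := by
  by_cases h1 : ∃ i, p i ≠ 1
  · have hqM : Subgroup.closure (Set.range q) ⊔ M = ⊤ := by
      rw [eq_top_iff, ← hs.gs, Subgroup.closure_le]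
      rintro x (⟨i, rfl⟩ | hx)
      · exact Subgroup.mem_sup_right (hp i)
      · exact Subgroup.mem_sup_left (Subgroup.subset_closure hx)
    exact chf_core hM hmin hne hz hs.gb hqM hp hq h1
  · have h2 : ∀ i, p i = 1 := fun i => by
      by_contra h3
      exact h1 ⟨i, h3⟩
    have hqt : Subgroup.closure (Set.range q) = ⊤ := by
      rw [eq_top_iff, ← hs.gs, Subgroup.closure_le]
      rintro x (⟨i, rfl⟩ | hx)
      · rw [h2 i]
        exact Subgroup.one_mem _
      · exact Subgroup.subset_closure hx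
    obtain ⟨m, hm, hm1⟩ := (Subgroup.ne_bot_iff_exists_ne_one).1 hne |>.elim
      fun m hm => (⟨(m : Q), m.2, fun h => hm (Subtype.ext h)⟩ : ∃ m : Q, m ∈ M ∧ m ≠ 1)
    have h4 : Rel p q (fun _ => m) q := Rel.free _ hqt
    refine h4.trans (chf_core hM hmin hne hz hs.gb (by rw [hqt, top_sup_eq]) (fun _ => hm) hq ?_)
    exact ⟨⟨0, hg⟩, hm1⟩

end Pool.Agent.MPb5eQ
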