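import Mathlib

/-!
# MP_b5ead8_al, project SolvableQuotients: states and admissible automorphisms

`FF g h` is the free group with the basis `x_i` (`Sum.inl i`, `i < g`) and `y_j` (`Sum.inr j`,
`j < h`), `pr` its projection onto the free group of rank `g` with `x_i ↦ a_i`, `y_j ↦ 1`.
A state of a group `Q` consists of `p : Fin g → Q` and `q : Fin h → Q`, `ev p q` is the
homomorphism `x_i ↦ p i`, `y_j ↦ q j`. Two states are equivalent (`Rel`) if they differ by an
automorphism of `FF g h` which induces an automorphism of the free group of rank `g` and fixes the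
classes of the `y_j` in the abelianization (`Adm`).
-/

set_option autoImplicit false

namespace Pool.Agent.MPb5eQ

open Function

/-- The free group with the basis `x_i`, `y_j`. -/
abbrev FF (g h : ℕ) : Type := FreeGroup (Fin g ⊕ Fin h)

/-- The homomorphism `x_i ↦ p i`, `y_j ↦ q j`. -/
def ev {g h : ℕ} {Q : Type} [Group Q] (p : Fin g → Q) (q : Fin h → Q) : FF g h →* Q :=
  FreeGroup.lift (Sum.elim p q)

/-- The projection `x_i ↦ a_i`, `y_j ↦ 1`. -/
def pr (g h : ℕ) : FF g h →* FreeGroup (Fin g) :=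
  FreeGroup.lift (Sum.elim FreeGroup.of (fun _ => 1))

/-- Admissible automorphisms. -/
structure Adm {g h : ℕ} (β : MulAut (FF g h)) : Prop where
  th : ∃ θ : MulAut (FreeGroup (Fin g)), ∀ z, pr g h (β z) = θ (pr g h z)
  ab : ∀ j : Fin h, Abelianization.of (β (FreeGroup.of (Sum.inr j))) =
    Abelianization.of (FreeGroup.of (Sum.inr j) : FF g h)

/-- Equivalence of states. -/
def Rel {g h : ℕ} {Q : Type} [Group Q] (p : Fin g → Q) (q : Fin h → Q) (p' : Fin g → Q)
    (q' : Fin h → Q) : Prop :=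
  ∃ β : MulAut (FF g h), Adm β ∧ (∀ i, p' i = ev p q (β (FreeGroup.of (Sum.inl i)))) ∧
    ∀ j, q' j = ev p q (β (FreeGroup.of (Sum.inr j)))

/-- The hypotheses on a state, relative to the tuple `b`. -/
structure St {g h : ℕ} {Q : Type} [Group Q] (b : Fin h → Q) (p : Fin g → Q)
    (q : Fin h → Q) : Prop where
  gb : Subgroup.closure (Set.range b) = ⊤
  gs : Subgroup.closure (Set.range p ∪ Set.range q) = ⊤
  cm : ∀ j, (b j)⁻¹ * q j ∈ commutator Q

/-- The state `(p, q)` can be transformed into `(1, b)` modulo `K`. -/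
def To {g h : ℕ} {Q : Type} [Group Q] (b : Fin h → Q) (p : Fin g → Q) (q : Fin h → Q)
    (K : Subgroup Q) : Prop :=
  ∃ (p' : Fin g → Q) (q' : Fin h → Q), Rel p q p' q' ∧ (∀ i, p' i ∈ K) ∧
    ∀ j, (b j)⁻¹ * q' j ∈ K

/-- The condition on a factor `M / K` of a normal series: it is central in `Q / K`, or it is abelian
and every normal subgroup `L` of `Q` with `K < L ≤ M` has finite index in `M`. -/
def Fac {Q : Type} [Group Q] (K M : Subgroup Q) : Prop :=
  K ≤ M ∧ (⁅M, (⊤ : Subgroup Q)⁆ ≤ K ∨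
    (⁅M, M⁆ ≤ K ∧ ∀ L : Subgroup Q, L.Normal → K < L → L ≤ M → L.relIndex M ≠ 0))

/-- There is a finite series of normal subgroups from `K` to `Q` with factors as in `Fac`. -/
def SerFrom {Q : Type} [Group Q] (K : Subgroup Q) : Prop :=
  ∃ (n : ℕ) (M : ℕ → Subgroup Q), (∀ i, (M i).Normal) ∧ M 0 = K ∧ M n = ⊤ ∧
    ∀ i < n, Fac (M i) (M (i + 1))

end Pool.Agent.MPb5eQ
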