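import Mathlib

/-!
# MP_b5ead8_al, project SolvableQuotients: Lemma 5, stable range one for finite cyclic modules
-/

set_option autoImplicit false

namespace Pool.Agent.MPb5eQ

open Function

/-- An elementary operation on a tuple of elements of a module. -/
def ElStep (R : Type) {A : Type} [Ring R] [AddCommGroup A] [Module R A] {n : ℕ}
    (p p' : Fin n → A) : Prop :=
  ∃ (i l : Fin n) (r : R), l ≠ i ∧ p' = update p i (p i + r • p l)

/-- Equivalence by elementary operations. -/
def El (R : Type) {A : Type} [Ring R] [AddCommGroup A] [Module R A] {n : ℕ}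
    (p p' : Fin n → A) : Prop :=
  Relation.ReflTransGen (ElStep R) p p'

section

variable {R A : Type} [Ring R] [AddCommGroup A] [Module R A]

private theorem SR_span_step {n : ℕ} {p : Fin n → A} {i l : Fin n} {r : R} (hli : l ≠ i) :
    Submodule.span R (Set.range p) =
      Submodule.span R (Set.range (update p i (p i + r • p l))) := by
  apply le_antisymm
  · rw [Submodule.span_le]
    rintro _ ⟨j, rfl⟩
    by_cases hj : j = i
    · subst hj
      have h1 : p j + r • p l ∈
          Submodule.span R (Set.range (update p j (p j + r • p l))) :=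
        Submodule.subset_span ⟨j, update_self _ _ _⟩
      have h2 : p l ∈ Submodule.span R (Set.range (update p j (p j + r • p l))) :=
        Submodule.subset_span ⟨l, update_of_ne hli _ _⟩
      have h3 := Submodule.sub_mem _ h1 (Submodule.smul_mem _ r h2)
      rwa [add_sub_cancel_right] at h3
    · exact Submodule.subset_span ⟨j, update_of_ne hj _ _⟩
  · rw [Submodule.span_le]
    rintro _ ⟨j, rfl⟩
    by_cases hj : j = i
    · subst hj
      rw [update_self]
      exact Submodule.add_mem _ (Submodule.subset_span ⟨j, rfl⟩)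
        (Submodule.smul_mem _ _ (Submodule.subset_span ⟨l, rfl⟩))
    · rw [update_of_ne hj]
      exact Submodule.subset_span ⟨j, rfl⟩

/-- The spanned submodule is an invariant. -/
theorem El.span {n : ℕ} {p p' : Fin n → A} (h : El R p p') :
    Submodule.span R (Set.range p) = Submodule.span R (Set.range p') := by
  induction h with
  | refl => rfl
  | tail _ h2 ih =>
    rw [ih]
    obtain ⟨i, l, r, hli, rfl⟩ := h2
    exact SR_span_step hli

/-- The key claim. `V` is minimal above `N`, `x` generates `A` modulo `V`, and `A` is cyclic modulo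
`N`. Then some `x + v'`, `v' ∈ V`, generates `A` modulo `N`.

Proof. Let `X v' = span {x + v'} ⊔ N`. `X v' ⊔ V = ⊤`, so if `X v' ≠ ⊤` then `X v' ⊓ V = N` (it
contains
`N`; if it were `V` then `V ≤ X v'`). Suppose `X v' ≠ ⊤` for all `v' ∈ V`. As `span {x} ⊔ V = ⊤`,
`w0 = r0 • x + v0`, `v0 ∈ V`; as `span {w0} ⊔ N = ⊤`, `x = t • w0 + n'`, so
`x = (t * r0) • x + v1`, `v1 ∈ V`. The map `v' ↦ r0 • v'` on `V / N` is injective: if
`r0 • v' ∈ N`, then `(1 - t * r0) • (x + v') ∈ V ⊓ X v' = N` (it is `v1 + (1 - t * r0) • v'`) and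
`(1 - t * r0) • x ∈ V ⊓ X 0 = N`, so `(1 - t * r0) • v' ∈ N`, `v' ∈ N`. `V / N` is finite
(`Finite (A ⧸ N)`), so the map is surjective: `r0 • v' - v0 ∈ N` for some `v' ∈ V`. Then
`w0 = r0 • (x + v') + (element of N) ∈ X v'`, so `⊤ = span {w0} ⊔ N ≤ X v'`, a contradiction.
For the finite map use e.g. the map of `↥V ⧸ (N.submoduleOf V)` (or `Submodule.mapQ`), or the
additive group `V.toAddSubgroup` and `Finite.injective_iff_surjective`. -/
theorem sr_key (N V : Submodule R A) [Finite (A ⧸ N)] (hNV : N < V)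
    (hmin : ∀ L : Submodule R A, N ≤ L → L ≤ V → L = N ∨ L = V) (x w0 : A)
    (hx : Submodule.span R {x} ⊔ V = ⊤) (hw : Submodule.span R {w0} ⊔ N = ⊤) :
    ∃ v' ∈ V, Submodule.span R {x + v'} ⊔ N = ⊤ := by
  by_contra hcon
  push Not at hcon
  have hmemX : ∀ v' : A, x + v' ∈ Submodule.span R {x + v'} ⊔ N := fun v' =>
    le_sup_left (a := Submodule.span R {x + v'}) (Submodule.mem_span_singleton_self _)
  have hX : ∀ v' ∈ V, ∀ a, a ∈ Submodule.span R {x + v'} ⊔ N → a ∈ V → a ∈ N := by
    intro v' hv' a ha haV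
    rcases hmin ((Submodule.span R {x + v'} ⊔ N) ⊓ V) (le_inf le_sup_right hNV.le)
      inf_le_right with h | h
    · rw [← h]
      exact ⟨ha, haV⟩
    · exfalso
      apply hcon v' hv'
      have hV : V ≤ Submodule.span R {x + v'} ⊔ N := by
        rw [← h]
        exact inf_le_left
      rw [eq_top_iff, ← hx, sup_le_iff, Submodule.span_singleton_le_iff_mem]
      refine ⟨?_, hV⟩
      have h3 := Submodule.sub_mem _ (hmemX v') (hV hv')
      rwa [add_sub_cancel_right] at h3
  have hw0 : w0 ∈ Submodule.span R {x} ⊔ V := by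
    rw [hx]
    exact Submodule.mem_top
  obtain ⟨a1, ha1, v0, hv0, hw1⟩ := Submodule.mem_sup.1 hw0
  obtain ⟨r0, rfl⟩ := Submodule.mem_span_singleton.1 ha1
  have hx0 : x ∈ Submodule.span R {w0} ⊔ N := by
    rw [hw]
    exact Submodule.mem_top
  obtain ⟨a2, ha2, n', hn', hx1⟩ := Submodule.mem_sup.1 hx0
  obtain ⟨t, rfl⟩ := Submodule.mem_span_singleton.1 ha2
  have hv1 : x - (t * r0) • x ∈ V := by
    have e1 : x - (t * r0) • x = t • v0 + n' := by
      have e2 : t • w0 + n' = x := hx1
      rw [← hw1, smul_add, smul_smul] at e2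
      rw [sub_eq_iff_eq_add]
      conv_lhs => rw [← e2]
      abel
    rw [e1]
    exact V.add_mem (V.smul_mem _ hv0) (hNV.le hn')
  have hxN : x - (t * r0) • x ∈ N := by
    refine hX 0 V.zero_mem _ ?_ hv1
    have h3 := hmemX 0
    rw [add_zero] at h3 ⊢
    exact Submodule.sub_mem _ h3 (Submodule.smul_mem _ _ h3)
  have hinj : ∀ v' ∈ V, r0 • v' ∈ N → v' ∈ N := by
    intro v' hv' hr
    have hr2 : t • (r0 • v') ∈ N := N.smul_mem _ hr
    rw [smul_smul] at hr2
    have h4 : (x + v') - (t * r0) • (x + v') ∈ N := by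
      refine hX v' hv' _ (Submodule.sub_mem _ (hmemX v') (Submodule.smul_mem _ _ (hmemX v'))) ?_
      have e3 : (x + v') - (t * r0) • (x + v') = (x - (t * r0) • x) + (v' - (t * r0) • v') := by
        rw [smul_add]
        abel
      rw [e3]
      exact V.add_mem hv1 (V.sub_mem hv' (hNV.le hr2))
    have e4 : v' = ((x + v') - (t * r0) • (x + v')) - (x - (t * r0) • x) + (t * r0) • v' := by
      rw [smul_add]
      abel
    rw [e4]
    exact N.add_mem (N.sub_mem h4 hxN) hr2
  let S : Submodule R (A ⧸ N) := V.map N.mkQ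
  let f : S → S := fun a => ⟨r0 • (a : A ⧸ N), S.smul_mem _ a.2⟩
  have hfi : Function.Injective f := by
    rintro ⟨a, ha⟩ ⟨b, hb⟩ hab
    obtain ⟨v, hv, rfl⟩ := ha
    obtain ⟨w, hw', rfl⟩ := hb
    have h5 : r0 • N.mkQ v = r0 • N.mkQ w := congrArg Subtype.val hab
    apply Subtype.ext
    change N.mkQ v = N.mkQ w
    rw [← sub_eq_zero, ← smul_sub, ← map_sub, ← map_smul, Submodule.mkQ_apply,
      Submodule.Quotient.mk_eq_zero] at h5
    rw [← sub_eq_zero, ← map_sub, Submodule.mkQ_apply, Submodule.Quotient.mk_eq_zero]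
    exact hinj _ (V.sub_mem hv hw') h5
  have hfs : Function.Surjective f := Finite.surjective_of_injective hfi
  obtain ⟨⟨a, ha⟩, hb⟩ := hfs ⟨N.mkQ v0, Submodule.mem_map_of_mem hv0⟩
  obtain ⟨v', hv', rfl⟩ := ha
  have h6 : r0 • N.mkQ v' = N.mkQ v0 := congrArg Subtype.val hb
  rw [← sub_eq_zero, ← map_smul, ← map_sub, Submodule.mkQ_apply,
    Submodule.Quotient.mk_eq_zero] at h6
  apply hcon v' hv'
  rw [eq_top_iff, ← hw, sup_le_iff, Submodule.span_singleton_le_iff_mem]
  refine ⟨?_, le_sup_right⟩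
  have e5 : w0 = r0 • (x + v') - (r0 • v' - v0) := by
    rw [← hw1, smul_add]
    abel
  rw [e5]
  exact Submodule.sub_mem _ (Submodule.smul_mem _ _ (hmemX v'))
    (le_sup_right (a := Submodule.span R {x + v'}) h6)

private theorem SR_exists_min (N : Submodule R A) [Finite (A ⧸ N)] (hN : N ≠ ⊤) :
    ∃ V : Submodule R A, N < V ∧
      ∀ L : Submodule R A, N ≤ L → L ≤ V → L = N ∨ L = V := by
  have hfs : Finite (Submodule R (A ⧸ N)) :=
    Finite.of_injective (fun V : Submodule R (A ⧸ N) => (V : Set (A ⧸ N)))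
      SetLike.coe_injective
  have hfin : {V : Submodule R A | N < V}.Finite := by
    refine Set.Finite.of_finite_image (f := fun V : Submodule R A => V.map N.mkQ)
      (Set.toFinite _) ?_
    intro V hV W hW hVW
    have h1 : Submodule.comap N.mkQ (Submodule.map N.mkQ V) =
        Submodule.comap N.mkQ (Submodule.map N.mkQ W) := congrArg (Submodule.comap N.mkQ) hVW
    rw [Submodule.comap_map_mkQ, Submodule.comap_map_mkQ] at h1
    have hV' : N < V := hV
    have hW' : N < W := hW
    rwa [sup_eq_right.2 hV'.le, sup_eq_right.2 hW'.le] at h1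
  obtain ⟨V, hV⟩ := hfin.exists_minimal ⟨⊤, lt_top_iff_ne_top.2 hN⟩
  refine ⟨V, hV.1, fun L h1 h2 => ?_⟩
  rcases eq_or_lt_of_le h1 with h | h
  · exact Or.inl h.symm
  · exact Or.inr (le_antisymm h2 (hV.2 h h2))

private theorem SR_card_lt (N V : Submodule R A) [Finite (A ⧸ N)] (hNV : N < V) :
    Nat.card (A ⧸ V) < Nat.card (A ⧸ N) := by
  have hfV : Finite (A ⧸ V) := Finite.of_surjective _ (Submodule.factor_surjective hNV.le)
  have i1 : Fintype (A ⧸ N) := Fintype.ofFinite _
  have i2 : Fintype (A ⧸ V) := Fintype.ofFinite _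
  rw [Nat.card_eq_fintype_card, Nat.card_eq_fintype_card]
  refine Fintype.card_lt_of_surjective_not_injective (Submodule.factor hNV.le)
    (Submodule.factor_surjective hNV.le) ?_
  intro hinj
  obtain ⟨v, hv, hvN⟩ := SetLike.exists_of_lt hNV
  apply hvN
  rw [← Submodule.Quotient.mk_eq_zero]
  apply hinj
  rw [map_zero]
  have h1 : Submodule.factor hNV.le (N.mkQ v) = V.mkQ v := Submodule.factor_mk hNV.le v
  rw [Submodule.mkQ_apply, Submodule.mkQ_apply] at h1
  rw [h1, Submodule.Quotient.mk_eq_zero]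
  exact hv

/-- Lemma 5 (stable range one).

Proof. Strong induction on `Nat.card (A ⧸ N)`. If `N = ⊤` nothing is to do. Otherwise take `V`
minimal
above `N` (finitely many submodules above `N`, they correspond to the submodules of `A ⧸ N`; or take
`V > N` with `Nat.card (A ⧸ V)` maximal). By induction for `V`: `El R p p'` with
`span {p' k} ⊔ V = ⊤`. Let `X = span {p' k} ⊔ N`; if `X = ⊤` done. By `El.span` some `p' i ∉ X`, `i
≠ k`;
`p' i = r • p' k + v` with `v ∈ V`, `v ∉ N`. Step `p' i ↦ p' i + (-r) • p' k = v`. `span {v} ⊔ N =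
V` by
minimality. `sr_key` for `x = p' k` gives `v' ∈ V`, `v' = s • v + n'`, and the step
`p' k ↦ p' k + s • v` works (`span {a} ⊔ N = span {a + n'} ⊔ N`). -/
theorem sr {n : ℕ} (k : Fin n) (w0 : A) (m : ℕ) (N : Submodule R A) [Finite (A ⧸ N)]
    (hm : Nat.card (A ⧸ N) = m) (p : Fin n → A) (hw : Submodule.span R {w0} ⊔ N = ⊤)
    (hp : Submodule.span R (Set.range p) ⊔ N = ⊤) :
    ∃ p' : Fin n → A, El R p p' ∧ Submodule.span R {p' k} ⊔ N = ⊤ := by
  induction m using Nat.strong_induction_on generalizing N p with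
  | _ m ih =>
    by_cases hN : N = ⊤
    · exact ⟨p, Relation.ReflTransGen.refl, by rw [hN, sup_top_eq]⟩
    obtain ⟨V, hNV, hmin⟩ := SR_exists_min N hN
    have hfV : Finite (A ⧸ V) := Finite.of_surjective _ (Submodule.factor_surjective hNV.le)
    have hlt : Nat.card (A ⧸ V) < m := by
      rw [← hm]
      exact SR_card_lt N V hNV
    have hwV : Submodule.span R {w0} ⊔ V = ⊤ := by
      rw [eq_top_iff, ← hw]
      exact sup_le_sup_left hNV.le _
    have hpV : Submodule.span R (Set.range p) ⊔ V = ⊤ := by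
      rw [eq_top_iff, ← hp]
      exact sup_le_sup_left hNV.le _
    obtain ⟨p', hpp', hp'⟩ := ih _ hlt V rfl p hwV hpV
    by_cases hXt : Submodule.span R {p' k} ⊔ N = ⊤
    · exact ⟨p', hpp', hXt⟩
    have hspan : Submodule.span R (Set.range p') ⊔ N = ⊤ := by
      rw [← El.span hpp']
      exact hp
    have hk : p' k ∈ Submodule.span R {p' k} ⊔ N :=
      le_sup_left (a := Submodule.span R {p' k}) (Submodule.mem_span_singleton_self _)
    obtain ⟨i, hi⟩ : ∃ i, p' i ∉ Submodule.span R {p' k} ⊔ N := by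
      by_contra hcon
      push Not at hcon
      apply hXt
      rw [eq_top_iff, ← hspan, sup_le_iff, Submodule.span_le]
      refine ⟨?_, le_sup_right⟩
      rintro _ ⟨j, rfl⟩
      exact hcon j
    have hik : i ≠ k := by
      rintro rfl
      exact hi hk
    have hi2 : p' i ∈ Submodule.span R {p' k} ⊔ V := by
      rw [hp']
      exact Submodule.mem_top
    obtain ⟨a, ha, v, hv, hiv⟩ := Submodule.mem_sup.1 hi2
    obtain ⟨r, rfl⟩ := Submodule.mem_span_singleton.1 ha
    have hvN : v ∉ N := by
      intro h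
      apply hi
      rw [← hiv]
      exact Submodule.add_mem _ (Submodule.smul_mem _ _ hk)
        (le_sup_right (a := Submodule.span R {p' k}) h)
    have hspv : Submodule.span R {v} ⊔ N = V := by
      rcases hmin (Submodule.span R {v} ⊔ N) le_sup_right
        (sup_le ((Submodule.span_singleton_le_iff_mem _ _).2 hv) hNV.le) with h | h
      · exfalso
        apply hvN
        rw [← h]
        exact le_sup_left (a := Submodule.span R {v}) (Submodule.mem_span_singleton_self _)
      · exact h
    obtain ⟨v', hv', hxv⟩ := sr_key N V hNV hmin (p' k) w0 hp' hw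
    rw [← hspv] at hv'
    obtain ⟨b, hb, n', hn', hbn⟩ := Submodule.mem_sup.1 hv'
    obtain ⟨s, rfl⟩ := Submodule.mem_span_singleton.1 hb
    set p2 : Fin n → A := update p' i (p' i + (-r) • p' k) with hp2
    have hp2i : p2 i = v := by
      rw [hp2, update_self, ← hiv, neg_smul]
      abel
    have hp2k : p2 k = p' k := by
      rw [hp2, update_of_ne hik.symm]
    refine ⟨update p2 k (p2 k + s • p2 i), ?_, ?_⟩
    · exact (hpp'.tail ⟨i, k, -r, hik.symm, rfl⟩).tail ⟨k, i, s, hik, rfl⟩
    · rw [update_self, hp2i, hp2k, eq_top_iff, ← hxv, sup_le_iff,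
        Submodule.span_singleton_le_iff_mem]
      refine ⟨?_, le_sup_right⟩
      rw [← hbn, ← add_assoc]
      exact Submodule.add_mem _
        (le_sup_left (a := Submodule.span R {p' k + s • v}) (Submodule.mem_span_singleton_self _))
        (le_sup_right (a := Submodule.span R {p' k + s • v}) hn')

end

end Pool.Agent.MPb5eQ
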