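import Pool.Agent.Lib.MP_b5ead8_al_Q.Mv2
import Pool.Agent.Lib.MP_b5ead8_al_Q.SR

/-!
# MP_b5ead8_al, project SolvableQuotients: Lemma 5 for states
-/

set_option autoImplicit false

namespace Pool.Agent.MPb5eQ

open Function
open scoped commutatorElement

section

variable {Q : Type} [Group Q] (M : Subgroup Q)

/-- `M` as a commutative group. -/
@[reducible] private def Srg_comm (hM : ∀ a b : M, a * b = b * a) : CommGroup M :=
  { (inferInstance : Group M) with mul_comm := hM }

end

section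

variable {Q : Type} [Group Q] {M : Subgroup Q}

private theorem Srg_cm (hM : ⁅M, M⁆ = ⊥) (a b : M) : a * b = b * a := by
  have h := Subgroup.commutator_mem_commutator a.2 b.2
  rw [hM, Subgroup.mem_bot, commutatorElement_eq_one_iff_mul_comm] at h
  exact Subtype.ext h

end

section

variable {Q A : Type} [Group Q] [AddCommGroup A]

/-- Abstract form: `A` is an abelian group with an injective map `v` to `Q`, image `M`. -/
private structure Srg_E (M : Subgroup Q) (v : A → Q) : Prop where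
  inj : Injective v
  mem : ∀ a, v a ∈ M
  sur : ∀ x ∈ M, ∃ a, v a = x
  add : ∀ a b, v (a + b) = v a * v b

private theorem Srg_E.zero {M : Subgroup Q} {v : A → Q} (h : Srg_E M v) : v 0 = 1 := by
  have h1 := h.add 0 0
  rw [add_zero] at h1
  exact (mul_eq_left.1 h1.symm)

private theorem Srg_E.neg {M : Subgroup Q} {v : A → Q} (h : Srg_E M v) (a : A) :
    v (-a) = (v a)⁻¹ := by
  have h1 := h.add a (-a)
  rw [add_neg_cancel, h.zero] at h1
  exact eq_inv_of_mul_eq_one_right h1.symm

/-- The conjugations. -/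
private def Srg_S (v : A → Q) : Set (AddMonoid.End A) :=
  {φ | ∃ x : Q, ∀ a, v (φ a) = x * v a * x⁻¹}

private theorem Srg_E.ex {M : Subgroup Q} [M.Normal] {v : A → Q} (h : Srg_E M v) (x : Q) :
    ∃ φ : AddMonoid.End A, ∀ a, v (φ a) = x * v a * x⁻¹ := by
  have h1 : ∀ a, ∃ b, v b = x * v a * x⁻¹ := fun a =>
    h.sur _ (Subgroup.Normal.conj_mem inferInstance _ (h.mem a) x)
  choose f hf using h1
  refine ⟨{ toFun := f, map_zero' := ?_, map_add' := ?_ }, hf⟩
  · apply h.inj
    rw [hf, h.zero]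
    group
  · intro a b
    apply h.inj
    rw [h.add, hf, hf, hf, h.add]
    group

private abbrev Srg_R (v : A → Q) : Subring (AddMonoid.End A) := Subring.closure (Srg_S v)

/-- Additive subgroups which are closed under conjugation are closed under the ring. -/
private theorem Srg_stab {M : Subgroup Q} {v : A → Q} (h : Srg_E M v) {L : Subgroup Q}
    (hL : ∀ φ ∈ Srg_S v, ∀ a, v a ∈ L → v (φ a) ∈ L) {r : AddMonoid.End A}
    (hr : r ∈ Srg_R v) : ∀ a, v a ∈ L → v (r a) ∈ L := by
  induction hr using Subring.closure_induction with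
  | mem φ hφ => exact hL φ hφ
  | zero =>
    intro a _
    change v 0 ∈ L
    rw [h.zero]
    exact L.one_mem
  | one => exact fun a ha => ha
  | add x y _ _ hx hy =>
    intro a ha
    change v (x a + y a) ∈ L
    rw [h.add]
    exact L.mul_mem (hx a ha) (hy a ha)
  | neg x _ hx =>
    intro a ha
    change v (-(x a)) ∈ L
    rw [h.neg]
    exact L.inv_mem (hx a ha)
  | mul x y _ _ hx hy => exact fun a ha => hx _ (hy a ha)

/-- Normal subgroups as submodules. -/
private def Srg_md {M : Subgroup Q} {v : A → Q} (h : Srg_E M v) (L : Subgroup Q) [L.Normal] :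
    Submodule (Srg_R v) A where
  carrier := {a | v a ∈ L}
  zero_mem' := by
    change v 0 ∈ L
    rw [h.zero]
    exact L.one_mem
  add_mem' {a b} ha hb := by
    change v (a + b) ∈ L
    rw [h.add]
    exact L.mul_mem ha hb
  smul_mem' r a ha := by
    refine Srg_stab h (fun φ hφ a ha => ?_) r.2 a ha
    obtain ⟨x, hx⟩ := hφ
    rw [hx]
    exact Subgroup.Normal.conj_mem inferInstance _ ha x

private theorem Srg_mem_md {M : Subgroup Q} {v : A → Q} (h : Srg_E M v) (L : Subgroup Q)
    [L.Normal] {a : A} : a ∈ Srg_md h L ↔ v a ∈ L := Iff.rfl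

/-- Submodules as normal subgroups. -/
private def Srg_sb {M : Subgroup Q} {v : A → Q} (h : Srg_E M v)
    (W : Submodule (Srg_R v) A) : Subgroup Q where
  carrier := {x | ∃ a ∈ W, v a = x}
  one_mem' := ⟨0, W.zero_mem, h.zero⟩
  mul_mem' := by
    rintro _ _ ⟨a, ha, rfl⟩ ⟨b, hb, rfl⟩
    exact ⟨a + b, W.add_mem ha hb, h.add a b⟩
  inv_mem' := by
    rintro _ ⟨a, ha, rfl⟩
    exact ⟨-a, W.neg_mem ha, h.neg a⟩

private theorem Srg_sb_normal {M : Subgroup Q} [M.Normal] {v : A → Q} (h : Srg_E M v)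
    (W : Submodule (Srg_R v) A) : (Srg_sb h W).Normal := by
  refine ⟨?_⟩
  rintro _ ⟨a, ha, rfl⟩ x
  obtain ⟨φ, hφ⟩ := h.ex x
  refine ⟨φ a, ?_, hφ a⟩
  exact W.smul_mem (⟨φ, Subring.subset_closure ⟨x, hφ⟩⟩ : Srg_R v) ha

private theorem Srg_top {M N : Subgroup Q} [M.Normal] [N.Normal] {v : A → Q} (h : Srg_E M v)
    (hNM : N ≤ M) {S : Set Q} (hS : Subgroup.normalClosure S ⊔ N = M)
    (W : Submodule (Srg_R v) A) (hW : ∀ a, v a ∈ S → a ∈ W) (hSM : S ⊆ M)
    (hN : Srg_md h N ≤ W) : W = ⊤ := by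
  have hn := Srg_sb_normal h W
  have h1 : M ≤ Srg_sb h W := by
    refine hS.ge.trans (sup_le (Subgroup.normalClosure_le_normal ?_) ?_)
    · intro x hx
      obtain ⟨a, rfl⟩ := h.sur x (hSM hx)
      exact ⟨a, hW a hx, rfl⟩
    · intro x hx
      obtain ⟨a, rfl⟩ := h.sur x (hNM hx)
      exact ⟨a, hN hx, rfl⟩
  rw [eq_top_iff]
  intro a _
  obtain ⟨b, hb, hba⟩ := h1 (h.mem a)
  rw [← h.inj hba]
  exact hb

private theorem Srg_back {M N : Subgroup Q} [M.Normal] [N.Normal] {v : A → Q} (h : Srg_E M v)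
    (hNM : N ≤ M) {a : A} (ha : Submodule.span (Srg_R v) {a} ⊔ Srg_md h N = ⊤) :
    Subgroup.normalClosure {v a} ⊔ N = M := by
  refine le_antisymm (sup_le (Subgroup.normalClosure_le_normal ?_) hNM) ?_
  · rw [Set.singleton_subset_iff]
    exact h.mem a
  · intro x hx
    obtain ⟨b, rfl⟩ := h.sur x hx
    have h1 : (⊤ : Submodule (Srg_R v) A) ≤
        Srg_md h (Subgroup.normalClosure {v a} ⊔ N) := by
      rw [← ha]
      refine sup_le (Submodule.span_le.2 ?_) ?_
      · rw [Set.singleton_subset_iff]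
        exact (le_sup_left : Subgroup.normalClosure {v a} ≤ _)
          (Subgroup.subset_normalClosure (Set.mem_singleton _))
      · intro c hc
        exact (le_sup_right : N ≤ _) hc
    exact h1 (Submodule.mem_top (x := b))

private theorem Srg_fin {M N : Subgroup Q} [M.Normal] [N.Normal] {v : A → Q} (h : Srg_E M v)
    (hfin : N.relIndex M ≠ 0) : Finite (A ⧸ Srg_md h N) := by
  have : Finite (M ⧸ N.subgroupOf M) := (Subgroup.fintypeOfIndexNeZero hfin).finite
  choose f hf using fun x : M => h.sur x.1 x.2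
  let F : M ⧸ N.subgroupOf M → A ⧸ Srg_md h N := Quotient.lift
    (fun x : M => Submodule.Quotient.mk (f x)) (by
      intro x y hxy
      have h0 : x⁻¹ * y ∈ N.subgroupOf M := QuotientGroup.leftRel_apply.1 hxy
      have h1 : ((x⁻¹ * y : M) : Q) ∈ N := h0
      refine Eq.symm ((Submodule.Quotient.eq _).2 ?_)
      rw [Srg_mem_md, sub_eq_add_neg, h.add, h.neg, hf, hf]
      have h2 := Subgroup.Normal.conj_mem (inferInstance : N.Normal) _ h1 (x : Q)
      have h3 : (x : Q) * ((x⁻¹ * y : M) : Q) * (x : Q)⁻¹ = (y : Q) * (x : Q)⁻¹ := by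
        rw [Subgroup.coe_mul, Subgroup.coe_inv]
        group
      rwa [h3] at h2)
  refine Finite.of_surjective F fun b => ?_
  obtain ⟨a, rfl⟩ := Submodule.Quotient.mk_surjective _ b
  refine ⟨QuotientGroup.mk ⟨v a, h.mem a⟩, ?_⟩
  change Submodule.Quotient.mk (f ⟨v a, h.mem a⟩) = _
  rw [h.inj (hf ⟨v a, h.mem a⟩)]

private theorem Srg_step {g h : ℕ} {M : Subgroup Q} [M.Normal] {v : A → Q} (hE : Srg_E M v)
    {q : Fin h → Q} (hM : ∀ a b : A, v a * v b = v b * v a)
    (hq : Subgroup.closure (Set.range q) ⊔ M = ⊤) {p p' : Fin g → A}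
    (hs : ElStep (Srg_R v) p p') : Rel (v ∘ p) q (v ∘ p') q := by
  obtain ⟨i, l, r, hli, rfl⟩ := hs
  have h1 : v ∘ update p i (p i + r • p l) =
      update (v ∘ p) i ((v ∘ p) i * v (r • p l)) := by
    rw [comp_update, hE.add]
    rfl
  rw [h1]
  apply Rel.pmul
  refine Srg_stab hE (L := Subgroup.closure ((v ∘ p) '' {k | k ≠ i} ∪ Set.range q))
    (fun φ hφ a ha => ?_) r.2 (p l)
    (Subgroup.subset_closure (Or.inl ⟨l, hli, rfl⟩))
  obtain ⟨x, hx⟩ := hφ
  rw [hx]
  have h2 : x ∈ Subgroup.closure (Set.range q) ⊔ M := by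
    rw [hq]
    trivial
  obtain ⟨c, hc, m, hm, rfl⟩ := Subgroup.mem_sup_of_normal_right.1 h2
  obtain ⟨b, rfl⟩ := hE.sur m hm
  have h3 : c * v b * v a * (c * v b)⁻¹ = c * v a * c⁻¹ := by
    rw [mul_inv_rev, mul_assoc c, hM b a]
    group
  rw [h3]
  have h4 : c ∈ Subgroup.closure ((v ∘ p) '' {k | k ≠ i} ∪ Set.range q) :=
    Subgroup.closure_mono Set.subset_union_right hc
  exact Subgroup.mul_mem _ (Subgroup.mul_mem _ h4 ha) (Subgroup.inv_mem _ h4)

private theorem Srg_el {g h : ℕ} {M : Subgroup Q} [M.Normal] {v : A → Q} (hE : Srg_E M v)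
    {q : Fin h → Q} (hM : ∀ a b : A, v a * v b = v b * v a)
    (hq : Subgroup.closure (Set.range q) ⊔ M = ⊤) {p p' : Fin g → A}
    (hs : El (Srg_R v) p p') : Rel (v ∘ p) q (v ∘ p') q := by
  induction hs with
  | refl => exact Rel.refl _ _
  | tail _ hs ih => exact ih.trans (Srg_step hE hM hq hs)

end

/-- Lemma 5 for states.

Proof. Let `A = Additive M`, a commutative group by `hM`. `Q` acts on `M` by conjugation
(`MulAut.conjNormal : Q →* MulAut M`); this makes `A` a module over `R = MonoidAlgebra ℤ Q`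
(`Representation.asModule` or `Module.compHom`), or over the subring `R` of `AddMonoid.End A`
generated by the conjugations. The submodules of `A` are the subgroups of `M` which are normal in
`Q`; `span {a}` corresponds to `Subgroup.normalClosure {a}`, and so on; `N` corresponds to a
submodule
`N'` with `A ⧸ N'` finite (`N.relIndex M ≠ 0`). Apply `sr`. Every elementary step is a move
`Rel.pmul`: for `a = r • p l` the element `a` is in `Subgroup.closure (p '' {k | k ≠ i} ∪ range q)`,
because the elements of `M` in this subgroup form a submodule (conjugation by `c ∈ Q = ⟨q⟩ M` is on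
`M` conjugation by an element of `⟨q⟩`) which contains `p l`. -/
theorem srg {g h : ℕ} {Q : Type} [Group Q] {q : Fin h → Q} {M N : Subgroup Q} [M.Normal]
    [N.Normal] (hM : ⁅M, M⁆ = ⊥) (hNM : N ≤ M) (hfin : N.relIndex M ≠ 0)
    (hq : Subgroup.closure (Set.range q) ⊔ M = ⊤) {u0 : Q} (hu0 : u0 ∈ M)
    (hu : Subgroup.normalClosure {u0} ⊔ N = M) (k : Fin g) (p : Fin g → Q)
    (hp : ∀ i, p i ∈ M) (hgen : Subgroup.normalClosure (Set.range p) ⊔ N = M) :
    ∃ p' : Fin g → Q, Rel p q p' q ∧ (∀ i, p' i ∈ M) ∧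
      Subgroup.normalClosure {p' k} ⊔ N = M := by
  let _ : CommGroup M := Srg_comm M (Srg_cm hM)
  let v : Additive M → Q := fun a => ((Additive.toMul a : M) : Q)
  have hE : Srg_E M v := by
    refine ⟨?_, fun a => (Additive.toMul a).2, fun x hx => ⟨Additive.ofMul ⟨x, hx⟩, rfl⟩,
      fun a b => rfl⟩
    intro a b hab
    exact Additive.toMul.injective (Subtype.ext hab)
  have hcm : ∀ a b : Additive M, v a * v b = v b * v a := fun a b =>
    congrArg Subtype.val (Srg_cm hM (Additive.toMul a) (Additive.toMul b))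
  obtain ⟨w0, hw0⟩ := hE.sur u0 hu0
  choose P hP using fun i => hE.sur (p i) (hp i)
  have := Srg_fin hE (N := N) hfin
  have h1 : Submodule.span (Srg_R v) {w0} ⊔ Srg_md hE N = ⊤ := by
    refine Srg_top hE hNM hu _ (fun a ha => ?_) ?_ le_sup_right
    · rw [Set.mem_singleton_iff, ← hw0] at ha
      rw [hE.inj ha]
      exact (le_sup_left : Submodule.span (Srg_R v) {w0} ≤ _)
        (Submodule.subset_span (Set.mem_singleton _))
    · rw [Set.singleton_subset_iff]
      exact hu0
  have h2 : Submodule.span (Srg_R v) (Set.range P) ⊔ Srg_md hE N = ⊤ := by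
    refine Srg_top hE hNM hgen _ (fun a ha => ?_) ?_ le_sup_right
    · obtain ⟨i, hi⟩ := ha
      rw [← hP] at hi
      rw [← hE.inj hi]
      exact (le_sup_left : Submodule.span (Srg_R v) (Set.range P) ≤ _)
        (Submodule.subset_span ⟨i, rfl⟩)
    · rintro _ ⟨i, rfl⟩
      exact hp i
  obtain ⟨P', h3, h4⟩ := sr k w0 _ (Srg_md hE N) rfl P h1 h2
  refine ⟨v ∘ P', ?_, fun i => hE.mem _, Srg_back hE hNM h4⟩
  have h5 : p = v ∘ P := funext fun i => (hP i).symm
  rw [h5]
  exact Srg_el hE hcm hq h3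

end Pool.Agent.MPb5eQ
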