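import Pool.Agent.Lib.MP_b5ead8_al_Q.Abm
import Pool.Agent.Lib.MP_b5ead8_al_Q.Srg

/-!
# MP_b5ead8_al, project SolvableQuotients: Lemma 6, just infinite abelian normal subgroups
-/

set_option autoImplicit false

namespace Pool.Agent.MPb5eQ

open Function
open scoped commutatorElement

/-- Lemma 6.

Proof. Let `H = Subgroup.closure (Set.range q)`, `N = H ⊓ M`. `H ⊔ E = ⊤` (`St.gs`, `p i ∈ E`), and
`E ≤ M` as `⁅normalClosure {u0}, ⊤⁆ ≤ normalClosure {u0} ≤ M`. `N` is normal: `c = k * e` with `k ∈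
H`,
`e ∈ E`, and `e` commutes with `x ∈ M`. `N ⊔ E = M` (if `m = k * e` then `k = m * e⁻¹ ∈ M`). `N ≠ ⊥`
because `E ≠ M`. So `N.relIndex M ≠ 0`. `normalClosure {u0} ⊔ N = M` because it contains `E`;
`normalClosure (range p) ⊔ N = M` (`St.gs`: every `m ∈ M` is `x * k` with `x` in the normal closure,
`k ∈ H`). `srg` with `k = ⟨0, _⟩`: `p'`. Let `i = ⟨1, _⟩`: `(p' i)⁻¹ * u0 = v * c` with `v ∈ N`,
`c ∈ normalClosure {p' k}`. `Rel.pmul` with `w = v ∈ H`: `p'' = update p' i (p' i * v)`, and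
`u0 = p'' i * c ∈ normalClosure (range p'')` (`p'' k = p' k`). So
`n j = (q j)⁻¹ * b j ∈ E ≤ ⁅normalClosure {u0}, ⊤⁆ ≤ ⁅normalClosure (range p''), ⊤⁆` and `abm`,
`Rel.free`
finish the proof. -/
theorem jin {g h : ℕ} {Q : Type} [Group Q] {p : Fin g → Q} {b q : Fin h → Q} (hg : 2 ≤ g)
    {M E : Subgroup Q} [M.Normal] [E.Normal] (hM : ⁅M, M⁆ = ⊥)
    (hfin : ∀ L : Subgroup Q, L.Normal → L ≠ ⊥ → L ≤ M → L.relIndex M ≠ 0) {u0 : Q}
    (hu0 : u0 ∈ M) (hE : E ≤ ⁅Subgroup.normalClosure {u0}, (⊤ : Subgroup Q)⁆) (hEM : E ≠ M)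
    (hs : St b p q) (hp : ∀ i, p i ∈ E) (hq : ∀ j, (b j)⁻¹ * q j ∈ E) :
    Rel p q (fun _ => 1) b := by
  classical
  have hC : Subgroup.normalClosure {u0} ≤ M :=
    Subgroup.normalClosure_le_normal (Set.singleton_subset_iff.2 hu0)
  have hE1 : E ≤ Subgroup.normalClosure {u0} := hE.trans (Subgroup.commutator_le_left _ _)
  have hE2 : E ≤ M := hE1.trans hC
  have hcomm : ∀ x ∈ M, ∀ y ∈ M, x * y = y * x := by
    intro x hx y hy
    have h1 : ⁅x, y⁆ ∈ ⁅M, M⁆ := Subgroup.commutator_mem_commutator hx hy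
    rw [hM, Subgroup.mem_bot] at h1
    exact commutatorElement_eq_one_iff_mul_comm.1 h1
  have hsup : Subgroup.closure (Set.range p) ⊔ Subgroup.closure (Set.range q) = ⊤ := by
    rw [← Subgroup.closure_union]
    exact hs.gs
  have hpE : Subgroup.closure (Set.range p) ≤ E := by
    rw [Subgroup.closure_le]
    rintro _ ⟨i, rfl⟩
    exact hp i
  have hHE : Subgroup.closure (Set.range q) ⊔ E = ⊤ := by
    rw [eq_top_iff, ← hsup, sup_comm]
    exact sup_le_sup_left hpE _
  have hHM : Subgroup.closure (Set.range q) ⊔ M = ⊤ := by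
    rw [eq_top_iff, ← hHE]
    exact sup_le_sup_left hE2 _
  have hdec : ∀ c : Q, ∃ k ∈ Subgroup.closure (Set.range q), ∃ e ∈ E, k * e = c := by
    intro c
    have h1 : c ∈ Subgroup.closure (Set.range q) ⊔ E := by
      rw [hHE]
      exact Subgroup.mem_top c
    exact Subgroup.mem_sup_of_normal_right.1 h1
  have hNn : (Subgroup.closure (Set.range q) ⊓ M).Normal := by
    constructor
    intro n hn c
    obtain ⟨k, hk, e, he, rfl⟩ := hdec c
    have h1 : k * e * n * (k * e)⁻¹ = k * n * k⁻¹ := by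
      have h2 : e * n = n * e := hcomm e (hE2 he) n hn.2
      rw [mul_assoc k e n, h2, mul_inv_rev]
      group
    refine ⟨?_, Subgroup.Normal.conj_mem inferInstance n hn.2 (k * e)⟩
    rw [h1]
    exact (Subgroup.closure (Set.range q)).mul_mem
      ((Subgroup.closure (Set.range q)).mul_mem hk hn.1) (Subgroup.inv_mem _ hk)
  have hNE : Subgroup.closure (Set.range q) ⊓ M ⊔ E = M := by
    apply le_antisymm (sup_le inf_le_right hE2)
    intro m hm
    obtain ⟨k, hk, e, he, rfl⟩ := hdec m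
    have h1 : k ∈ M := by
      have h2 := mul_mem hm (inv_mem (hE2 he))
      rwa [mul_inv_cancel_right] at h2
    exact mul_mem (Subgroup.mem_sup_left ⟨hk, h1⟩) (Subgroup.mem_sup_right he)
  have hNb : Subgroup.closure (Set.range q) ⊓ M ≠ ⊥ := by
    intro h1
    rw [h1, bot_sup_eq] at hNE
    exact hEM hNE
  have hNf := hfin _ hNn hNb inf_le_right
  have hu : Subgroup.normalClosure {u0} ⊔ (Subgroup.closure (Set.range q) ⊓ M) = M := by
    apply le_antisymm (sup_le hC inf_le_right)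
    calc M = Subgroup.closure (Set.range q) ⊓ M ⊔ E := hNE.symm
      _ ≤ Subgroup.closure (Set.range q) ⊓ M ⊔ Subgroup.normalClosure {u0} :=
        sup_le_sup_left hE1 _
      _ = _ := sup_comm _ _
  have hgen : Subgroup.normalClosure (Set.range p) ⊔
      (Subgroup.closure (Set.range q) ⊓ M) = M := by
    have h0 : Subgroup.normalClosure (Set.range p) ≤ M := by
      apply Subgroup.normalClosure_le_normal
      rintro _ ⟨i, rfl⟩
      exact hE2 (hp i)
    apply le_antisymm (sup_le h0 inf_le_right)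
    intro m hm
    have h1 : m ∈ Subgroup.normalClosure (Set.range p) ⊔ Subgroup.closure (Set.range q) := by
      have h2 : (⊤ : Subgroup Q) ≤ Subgroup.normalClosure (Set.range p) ⊔
          Subgroup.closure (Set.range q) := by
        rw [← hsup]
        exact sup_le_sup_right Subgroup.closure_le_normalClosure _
      exact h2 (Subgroup.mem_top m)
    obtain ⟨x, hx, k, hk, rfl⟩ := Subgroup.mem_sup_of_normal_left.1 h1
    have h3 : k ∈ M := by
      have h2 := mul_mem (inv_mem (h0 hx)) hm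
      rwa [inv_mul_cancel_left] at h2
    exact mul_mem (Subgroup.mem_sup_left hx) (Subgroup.mem_sup_right ⟨hk, h3⟩)
  obtain ⟨p', hp1, hp2, hp3⟩ := srg hM inf_le_right hNf hHM hu0 hu (⟨0, by omega⟩ : Fin g) p
    (fun i => hE2 (hp i)) hgen
  have h4 : (p' ⟨1, by omega⟩)⁻¹ * u0 ∈ Subgroup.closure (Set.range q) ⊓ M ⊔
      Subgroup.normalClosure {p' ⟨0, by omega⟩} := by
    rw [sup_comm, hp3]
    exact mul_mem (inv_mem (hp2 _)) hu0
  obtain ⟨v, hv, c, hc, hvc⟩ := Subgroup.mem_sup_of_normal_right.1 h4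
  have hne : (⟨0, by omega⟩ : Fin g) ≠ ⟨1, by omega⟩ := by
    intro h5
    simpa using congrArg Fin.val h5
  have hr1 : Rel p' q (update p' ⟨1, by omega⟩ (p' ⟨1, by omega⟩ * v)) q :=
    Rel.pmul _ (Subgroup.closure_mono Set.subset_union_right hv.1)
  have hu1 : u0 ∈ Subgroup.normalClosure
      (Set.range (update p' ⟨1, by omega⟩ (p' ⟨1, by omega⟩ * v))) := by
    have h5 : u0 = p' ⟨1, by omega⟩ * v * c := by
      rw [mul_assoc, hvc, mul_inv_cancel_left]
    rw [h5]
    refine mul_mem (Subgroup.subset_normalClosure ⟨⟨1, by omega⟩, update_self _ _ _⟩) ?_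
    refine Subgroup.normalClosure_mono ?_ hc
    rintro _ rfl
    exact ⟨⟨0, by omega⟩, update_of_ne hne _ _⟩
  have hr2 := abm (p := update p' ⟨1, by omega⟩ (p' ⟨1, by omega⟩ * v)) (q := q) hM
    (by
      intro i
      by_cases hi : i = ⟨1, by omega⟩
      · subst hi
        rw [update_self]
        exact mul_mem (hp2 _) hv.2
      · rw [update_of_ne hi]
        exact hp2 i) hHM (fun j => (q j)⁻¹ * b j)
    (by
      intro j
      have h5 : (q j)⁻¹ * b j ∈ E := by
        have h6 := inv_mem (hq j)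
        rwa [mul_inv_rev, inv_inv] at h6
      refine Subgroup.commutator_mono ?_ le_rfl (hE h5)
      exact Subgroup.normalClosure_le_normal (Set.singleton_subset_iff.2 hu1))
  have h7 : (fun j => q j * ((q j)⁻¹ * b j)) = b := by
    funext j
    rw [mul_inv_cancel_left]
  rw [h7] at hr2
  exact ((hp1.trans hr1).trans hr2).trans (Rel.free _ hs.gb)

end Pool.Agent.MPb5eQ
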