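import Pool.Agent.Lib.MP_b5ead8_al_Q.Defs

/-!
# MP_b5ead8_al, project SolvableQuotients: the equivalence of states
-/

set_option autoImplicit false

namespace Pool.Agent.MPb5eQ

open Function

section

variable {g h : ℕ}

/-- The identity is admissible. -/
theorem Adm.one : Adm (1 : MulAut (FF g h)) := by
  refine ⟨⟨1, fun z => ?_⟩, fun j => ?_⟩
  · rw [MulAut.one_apply, MulAut.one_apply]
  · rw [MulAut.one_apply]

private theorem Mv1_ab (β : MulAut (FF g h)) (z : FF g h) :
    Abelianization.map (β : FF g h ≃* FF g h).toMonoidHom (Abelianization.of z) =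
      Abelianization.of (β z) := by
  rw [Abelianization.map_of]
  rfl

/-- Composition. Proof of `ab`: both sides of `Adm.ab` for `β'` are equal in the abelianization;
apply the homomorphism of abelianizations induced by `β` (`Abelianization.map`). -/
theorem Adm.mul {β β' : MulAut (FF g h)} (h1 : Adm β) (h2 : Adm β') : Adm (β * β') := by
  obtain ⟨θ, hθ⟩ := h1.th
  obtain ⟨θ', hθ'⟩ := h2.th
  refine ⟨⟨θ * θ', fun z => ?_⟩, fun j => ?_⟩
  · rw [MulAut.mul_apply, MulAut.mul_apply, hθ, hθ']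
  · rw [MulAut.mul_apply, ← Mv1_ab, h2.ab j, Mv1_ab, h1.ab j]

/-- Inverse. Proof of `ab`: `Abelianization.map β⁻¹` applied to `Adm.ab` for `β`. -/
theorem Adm.inv {β : MulAut (FF g h)} (h1 : Adm β) : Adm β⁻¹ := by
  obtain ⟨θ, hθ⟩ := h1.th
  refine ⟨⟨θ⁻¹, fun z => ?_⟩, fun j => ?_⟩
  · apply θ.injective
    rw [← hθ, MulAut.apply_inv_self, MulAut.apply_inv_self]
  · have h2 := congrArg (Abelianization.map (β⁻¹ : MulAut (FF g h)).toMonoidHom) (h1.ab j)
    rw [Mv1_ab, Mv1_ab, MulAut.inv_apply_self] at h2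
    exact h2.symm

end

section

variable {g h : ℕ} {Q G : Type} [Group Q] [Group G] {p p' p'' b' : Fin g → Q}
  {b q q' q'' : Fin h → Q}

/-- The evaluation of the new state. -/
theorem ev_new {β : MulAut (FF g h)} (h1 : ∀ i, p' i = ev p q (β (FreeGroup.of (Sum.inl i))))
    (h2 : ∀ j, q' j = ev p q (β (FreeGroup.of (Sum.inr j)))) (z : FF g h) :
    ev p' q' z = ev p q (β z) := by
  have key : ev p' q' = (ev p q).comp (β : FF g h ≃* FF g h).toMonoidHom := by
    apply FreeGroup.ext_hom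
    intro a
    have h3 : ev p' q' (FreeGroup.of a) = Sum.elim p' q' a := FreeGroup.lift_apply_of
    rw [h3]
    cases a with
    | inl i => exact h1 i
    | inr j => exact h2 j
  exact DFunLike.congr_fun key z

private theorem Mv1_inl (p : Fin g → Q) (q : Fin h → Q) (i : Fin g) :
    ev p q (FreeGroup.of (Sum.inl i)) = p i := FreeGroup.lift_apply_of

private theorem Mv1_inr (p : Fin g → Q) (q : Fin h → Q) (j : Fin h) :
    ev p q (FreeGroup.of (Sum.inr j)) = q j := FreeGroup.lift_apply_of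

theorem Rel.refl (p : Fin g → Q) (q : Fin h → Q) : Rel p q p q := by
  refine ⟨1, Adm.one, fun i => ?_, fun j => ?_⟩
  · rw [MulAut.one_apply, Mv1_inl]
  · rw [MulAut.one_apply, Mv1_inr]

theorem Rel.symm (h1 : Rel p q p' q') : Rel p' q' p q := by
  obtain ⟨β, hβ, h2, h3⟩ := h1
  refine ⟨β⁻¹, hβ.inv, fun i => ?_, fun j => ?_⟩
  · rw [ev_new h2 h3, MulAut.apply_inv_self, Mv1_inl]
  · rw [ev_new h2 h3, MulAut.apply_inv_self, Mv1_inr]

theorem Rel.trans (h1 : Rel p q p' q') (h2 : Rel p' q' p'' q'') : Rel p q p'' q'' := by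
  obtain ⟨β, hβ, h3, h4⟩ := h1
  obtain ⟨β', hβ', h5, h6⟩ := h2
  refine ⟨β * β', hβ.mul hβ', fun i => ?_, fun j => ?_⟩
  · rw [h5, ev_new h3 h4, MulAut.mul_apply]
  · rw [h6, ev_new h3 h4, MulAut.mul_apply]

private theorem Mv1_range (p : Fin g → Q) (q : Fin h → Q) :
    (ev p q).range = Subgroup.closure (Set.range p ∪ Set.range q) := by
  rw [ev, FreeGroup.range_lift_eq_closure, Set.Sum.elim_range]

/-- The generated subgroup is an invariant. Proof: it is the range of `ev p q`. -/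
theorem Rel.gen (h1 : Rel p q p' q') : Subgroup.closure (Set.range p ∪ Set.range q) =
    Subgroup.closure (Set.range p' ∪ Set.range q') := by
  obtain ⟨β, hβ, h2, h3⟩ := h1
  rw [← Mv1_range, ← Mv1_range]
  ext x
  rw [MonoidHom.mem_range, MonoidHom.mem_range]
  constructor
  · rintro ⟨z, hz⟩
    refine ⟨β⁻¹ z, ?_⟩
    rw [ev_new h2 h3, MulAut.apply_inv_self, hz]
  · rintro ⟨z, hz⟩
    exact ⟨β z, by rw [← ev_new h2 h3, hz]⟩

private theorem Mv1_com {H H' : Type} [Group H] [Group H'] (f : H →* H') {z : H}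
    (hz : z ∈ commutator H) : f z ∈ commutator H' := by
  rw [← Abelianization.ker_of, MonoidHom.mem_ker] at hz ⊢
  rw [← Abelianization.map_of, hz, map_one]

/-- The class of `q j` modulo commutators is an invariant. Proof: by `Adm.ab` the element
`(y_j)⁻¹ * β y_j` is in the commutator subgroup of `FF g h` (kernel of `Abelianization.of`), which
`ev p q` maps into `commutator Q` (`Subgroup.map_commutator` or `Abelianization.map`). -/
theorem Rel.comm (h1 : Rel p q p' q') (j : Fin h) : (q j)⁻¹ * q' j ∈ commutator Q := by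
  obtain ⟨β, hβ, h2, h3⟩ := h1
  have h4 : (FreeGroup.of (Sum.inr j) : FF g h)⁻¹ * β (FreeGroup.of (Sum.inr j)) ∈
      commutator (FF g h) := by
    rw [← Abelianization.ker_of, MonoidHom.mem_ker, map_mul, map_inv, hβ.ab j, inv_mul_cancel]
  have h5 := Mv1_com (ev p q) h4
  rw [map_mul, map_inv, Mv1_inr, ← h3 j] at h5
  exact h5

private theorem Mv1_ev (f : Q →* G) (p : Fin g → Q) (q : Fin h → Q) (z : FF g h) :
    f (ev p q z) = ev (f ∘ p) (f ∘ q) z := by
  have key : f.comp (ev p q) = ev (f ∘ p) (f ∘ q) := by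
    apply FreeGroup.ext_hom
    intro a
    rw [MonoidHom.comp_apply]
    cases a with
    | inl i => rw [Mv1_inl, Mv1_inl]; rfl
    | inr j => rw [Mv1_inr, Mv1_inr]; rfl
  exact DFunLike.congr_fun key z

/-- Homomorphisms preserve the equivalence. -/
theorem Rel.map (f : Q →* G) (h1 : Rel p q p' q') : Rel (f ∘ p) (f ∘ q) (f ∘ p') (f ∘ q') := by
  obtain ⟨β, hβ, h2, h3⟩ := h1
  refine ⟨β, hβ, fun i => ?_, fun j => ?_⟩
  · rw [← Mv1_ev, ← h2]
    rfl
  · rw [← Mv1_ev, ← h3]
    rfl

/-- Equivalences in the image lift (same automorphism). -/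
theorem Rel.lift (f : Q →* G) {r : Fin g → G} {s : Fin h → G}
    (h1 : Rel (f ∘ p) (f ∘ q) r s) :
    ∃ (p' : Fin g → Q) (q' : Fin h → Q), Rel p q p' q' ∧ f ∘ p' = r ∧ f ∘ q' = s := by
  obtain ⟨β, hβ, h2, h3⟩ := h1
  refine ⟨fun i => ev p q (β (FreeGroup.of (Sum.inl i))),
    fun j => ev p q (β (FreeGroup.of (Sum.inr j))),
    ⟨β, hβ, fun i => rfl, fun j => rfl⟩, ?_, ?_⟩
  · funext i
    rw [h2 i, ← Mv1_ev]
    rfl
  · funext j
    rw [h3 j, ← Mv1_ev]
    rfl

/-- The hypotheses `St` are preserved. Proof: `Rel.gen`, `Rel.comm`. -/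
theorem St.rel (h0 : St b p q) (h1 : Rel p q p' q') : St b p' q' where
  gb := h0.gb
  gs := by
    rw [← h1.gen]
    exact h0.gs
  cm := fun j => by
    have h2 := mul_mem (h0.cm j) (h1.comm j)
    rwa [mul_assoc, mul_inv_cancel_left] at h2

/-- The hypotheses `St` pass to the image of a surjective homomorphism. -/
theorem St.map (f : Q →* G) (hf : Surjective f) (h0 : St b p q) :
    St (f ∘ b) (f ∘ p) (f ∘ q) where
  gb := by
    rw [Set.range_comp, ← MonoidHom.map_closure, h0.gb, Subgroup.map_top_of_surjective f hf]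
  gs := by
    rw [Set.range_comp, Set.range_comp, ← Set.image_union, ← MonoidHom.map_closure, h0.gs,
      Subgroup.map_top_of_surjective f hf]
  cm := fun j => by
    have h2 := Mv1_com f (h0.cm j)
    rw [map_mul, map_inv] at h2
    exact h2

end

end Pool.Agent.MPb5eQ
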