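import Pool.Agent.Lib.MP_b5ead8_al_Q.Mv1
import Pool.Agent.Lib.MP_b5ead8_al.NE

/-!
# MP_b5ead8_al, project SolvableQuotients: the elementary moves
-/

set_option autoImplicit false

namespace Pool.Agent.MPb5eQ

open Function
open scoped commutatorElement

/-- Transvections. Proof: `NE.update_mul_right` and `NE.update_mul_left` (namespace
`Pool.Agent.MPb5ead8`) for the tuple `FreeGroup.of`; note `FreeGroup.lift FreeGroup.of` is the
identity. -/
theorem exists_tv {ι : Type} [DecidableEq ι] (z : ι) {u v : FreeGroup ι}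
    (hu : u ∈ Subgroup.closure (FreeGroup.of '' {k | k ≠ z}))
    (hv : v ∈ Subgroup.closure (FreeGroup.of '' {k | k ≠ z})) :
    ∃ β : MulAut (FreeGroup ι), β (FreeGroup.of z) = u * FreeGroup.of z * v ∧
      ∀ k, k ≠ z → β (FreeGroup.of k) = FreeGroup.of k := by
  have h1 := Pool.Agent.MPb5ead8.NE.update_mul_right (FreeGroup.of : ι → FreeGroup ι) z hv
    (FreeGroup.of z)
  have h2 := Pool.Agent.MPb5ead8.NE.update_mul_left (FreeGroup.of : ι → FreeGroup ι) z hu
    (FreeGroup.of z * v)
  rw [update_eq_self] at h1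
  obtain ⟨α, hα⟩ := h1.trans h2
  have hid : ∀ x : FreeGroup ι, FreeGroup.lift (FreeGroup.of : ι → FreeGroup ι) x = x := by
    intro x
    have h3 : FreeGroup.lift (FreeGroup.of : ι → FreeGroup ι) = MonoidHom.id (FreeGroup ι) := by
      ext k
      simp
    rw [h3, MonoidHom.id_apply]
  refine ⟨α, ?_, fun k hk => ?_⟩
  · have h3 := hα z
    rw [hid, update_self, ← mul_assoc] at h3
    exact h3
  · have h3 := hα k
    rw [hid, update_of_ne hk] at h3
    exact h3

/-- Every element of the subgroup generated by a part of a tuple is the value of a word in this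
part. Proof: `Subgroup.closure_induction` or `MonoidHom.map_closure`. -/
theorem exists_word {ι Q : Type} [Group Q] (t : ι → Q) (S : Set ι) {w : Q}
    (hw : w ∈ Subgroup.closure (t '' S)) :
    ∃ W ∈ Subgroup.closure (FreeGroup.of '' S), FreeGroup.lift t W = w := by
  have h1 : t '' S = (FreeGroup.lift t) '' (FreeGroup.of '' S) := by
    rw [Set.image_image]
    refine Set.image_congr fun k _ => ?_
    rw [FreeGroup.lift_apply_of]
  rw [h1, ← MonoidHom.map_closure] at hw
  obtain ⟨W, hW, hw'⟩ := Subgroup.mem_map.1 hw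
  exact ⟨W, hW, hw'⟩

section

variable {g h : ℕ} {Q : Type} [Group Q] {p : Fin g → Q} {q : Fin h → Q}

private theorem Mv2_ev_inl (i : Fin g) : ev p q (FreeGroup.of (Sum.inl i)) = p i := by
  unfold ev
  rw [FreeGroup.lift_apply_of, Sum.elim_inl]

private theorem Mv2_ev_inr (j : Fin h) : ev p q (FreeGroup.of (Sum.inr j)) = q j := by
  unfold ev
  rw [FreeGroup.lift_apply_of, Sum.elim_inr]

private theorem Mv2_pr_inl (i : Fin g) :
    pr g h (FreeGroup.of (Sum.inl i)) = FreeGroup.of i := by
  unfold pr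
  rw [FreeGroup.lift_apply_of, Sum.elim_inl]

private theorem Mv2_pr_inr (j : Fin h) : pr g h (FreeGroup.of (Sum.inr j)) = 1 := by
  unfold pr
  rw [FreeGroup.lift_apply_of, Sum.elim_inr]

private theorem Mv2_rel_inl (p : Fin g → Q) (q : Fin h → Q) (i : Fin g) {U V : FF g h}
    (hU : U ∈ Subgroup.closure (FreeGroup.of '' {k | k ≠ Sum.inl i}))
    (hV : V ∈ Subgroup.closure (FreeGroup.of '' {k | k ≠ Sum.inl i})) :
    Rel p q (update p i (ev p q U * p i * ev p q V)) q := by
  have hle : ∀ W ∈ Subgroup.closure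
      ((FreeGroup.of : Fin g ⊕ Fin h → FF g h) '' {k | k ≠ Sum.inl i}),
      pr g h W ∈ Subgroup.closure (FreeGroup.of '' {k | k ≠ i}) := by
    intro W hW
    have h1 : Subgroup.closure ((FreeGroup.of : Fin g ⊕ Fin h → FF g h) '' {k | k ≠ Sum.inl i}) ≤
        (Subgroup.closure (FreeGroup.of '' {k | k ≠ i})).comap (pr g h) := by
      rw [Subgroup.closure_le]
      rintro _ ⟨k, hk, rfl⟩
      rw [SetLike.mem_coe, Subgroup.mem_comap]
      rcases k with k | k
      · rw [Mv2_pr_inl]
        refine Subgroup.subset_closure ⟨k, ?_, rfl⟩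
        intro hki
        exact hk (congrArg Sum.inl hki)
      · rw [Mv2_pr_inr]
        exact one_mem _
    exact h1 hW
  obtain ⟨β, hβ1, hβ2⟩ := exists_tv (Sum.inl i : Fin g ⊕ Fin h) hU hV
  obtain ⟨θ, hθ1, hθ2⟩ := exists_tv i (hle U hU) (hle V hV)
  have hβr : ∀ j : Fin h, β (FreeGroup.of (Sum.inr j)) = FreeGroup.of (Sum.inr j) := fun j =>
    hβ2 _ (by simp)
  refine ⟨β, ⟨⟨θ, fun z => ?_⟩, fun j => by rw [hβr]⟩, fun k => ?_, fun j => ?_⟩
  · have h1 : (pr g h).comp β.toMonoidHom = θ.toMonoidHom.comp (pr g h) := by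
      ext k
      change pr g h (β (FreeGroup.of k)) = θ (pr g h (FreeGroup.of k))
      rcases k with k | k
      · by_cases hk : k = i
        · subst hk
          rw [hβ1, map_mul, map_mul, Mv2_pr_inl, hθ1]
        · have hk' : (Sum.inl k : Fin g ⊕ Fin h) ≠ Sum.inl i := fun h2 => hk (Sum.inl.inj h2)
          rw [hβ2 _ hk', Mv2_pr_inl, hθ2 _ hk]
      · rw [hβr, Mv2_pr_inr, map_one]
    exact DFunLike.congr_fun h1 z
  · by_cases hk : k = i
    · subst hk
      rw [update_self, hβ1, map_mul, map_mul, Mv2_ev_inl]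
    · have hk' : (Sum.inl k : Fin g ⊕ Fin h) ≠ Sum.inl i := fun h2 => hk (Sum.inl.inj h2)
      rw [update_of_ne hk, hβ2 _ hk', Mv2_ev_inl]
  · rw [hβr, Mv2_ev_inr]

private theorem Mv2_rel_inr (p : Fin g → Q) (q : Fin h → Q) (j : Fin h) {U V : FF g h}
    (hU : U ∈ Subgroup.closure (FreeGroup.of '' {k | k ≠ Sum.inr j}))
    (hV : V ∈ Subgroup.closure (FreeGroup.of '' {k | k ≠ Sum.inr j}))
    (hab : Abelianization.of U * Abelianization.of V = 1) (hpr : pr g h U * pr g h V = 1) :
    Rel p q p (update q j (ev p q U * q j * ev p q V)) := by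
  obtain ⟨β, hβ1, hβ2⟩ := exists_tv (Sum.inr j : Fin g ⊕ Fin h) hU hV
  have hβl : ∀ k : Fin g, β (FreeGroup.of (Sum.inl k)) = FreeGroup.of (Sum.inl k) := fun k =>
    hβ2 _ (by simp)
  refine ⟨β, ⟨⟨1, fun z => ?_⟩, fun k => ?_⟩, fun k => ?_, fun k => ?_⟩
  · have h1 : (pr g h).comp β.toMonoidHom = pr g h := by
      ext k
      change pr g h (β (FreeGroup.of k)) = pr g h (FreeGroup.of k)
      rcases k with k | k
      · rw [hβl]
      · by_cases hk : k = j
        · subst hk
          rw [hβ1, map_mul, map_mul, Mv2_pr_inr, mul_one, hpr]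
        · have hk' : (Sum.inr k : Fin g ⊕ Fin h) ≠ Sum.inr j := fun h2 => hk (Sum.inr.inj h2)
          rw [hβ2 _ hk']
    rw [MulAut.one_apply]
    exact DFunLike.congr_fun h1 z
  · by_cases hk : k = j
    · subst hk
      rw [hβ1, map_mul, map_mul, mul_right_comm, hab, one_mul]
    · have hk' : (Sum.inr k : Fin g ⊕ Fin h) ≠ Sum.inr j := fun h2 => hk (Sum.inr.inj h2)
      rw [hβ2 _ hk']
  · rw [hβl, Mv2_ev_inl]
  · by_cases hk : k = j
    · subst hk
      rw [update_self, hβ1, map_mul, map_mul, Mv2_ev_inr]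
    · have hk' : (Sum.inr k : Fin g ⊕ Fin h) ≠ Sum.inr j := fun h2 => hk (Sum.inr.inj h2)
      rw [update_of_ne hk, hβ2 _ hk', Mv2_ev_inr]

private theorem Mv2_word (p : Fin g → Q) (q : Fin h → Q) (i : Fin g) {w : Q}
    (hw : w ∈ Subgroup.closure (p '' {k | k ≠ i} ∪ Set.range q)) :
    ∃ W ∈ Subgroup.closure (FreeGroup.of '' {k : Fin g ⊕ Fin h | k ≠ Sum.inl i}),
      ev p q W = w := by
  have h1 : p '' {k | k ≠ i} ∪ Set.range q ⊆
      Sum.elim p q '' {k : Fin g ⊕ Fin h | k ≠ Sum.inl i} := by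
    rintro _ (⟨k, hk, rfl⟩ | ⟨j, rfl⟩)
    · exact ⟨Sum.inl k, fun h2 => hk (Sum.inl.inj h2), rfl⟩
    · exact ⟨Sum.inr j, by simp, rfl⟩
  exact exists_word (Sum.elim p q) _ (Subgroup.closure_mono h1 hw)

/-- Move (a), right multiplication. Proof: `exists_word` for `Sum.elim p q` and
`S = {k | k ≠ Sum.inl i}` gives `W`; `exists_tv` with `u = 1`, `v = W` gives `β`; `θ` by
`exists_tv` for
`FreeGroup (Fin g)`, `z = i`, `v = pr W` (`pr` maps `FreeGroup.of '' {k | k ≠ Sum.inl i}` into the
subgroup generated by `FreeGroup.of '' {k | k ≠ i}`). -/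
theorem Rel.pmul (i : Fin g) {w : Q}
    (hw : w ∈ Subgroup.closure (p '' {k | k ≠ i} ∪ Set.range q)) :
    Rel p q (update p i (p i * w)) q := by
  obtain ⟨W, hW, hw'⟩ := Mv2_word p q i hw
  have h1 := Mv2_rel_inl p q i (one_mem _) hW
  rwa [map_one, one_mul, hw'] at h1

/-- Move (a), left multiplication. -/
theorem Rel.pmul' (i : Fin g) {w : Q}
    (hw : w ∈ Subgroup.closure (p '' {k | k ≠ i} ∪ Set.range q)) :
    Rel p q (update p i (w * p i)) q := by
  obtain ⟨W, hW, hw'⟩ := Mv2_word p q i hw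
  have h1 := Mv2_rel_inl p q i hW (one_mem _)
  rwa [map_one, mul_one, hw'] at h1

/-- Move (b). Proof: `exists_tv` with `z = Sum.inr j`, `u = of (Sum.inl i)`, `v = u⁻¹`; `θ = 1`. -/
theorem Rel.qconj (i : Fin g) (j : Fin h) :
    Rel p q p (update q j (p i * q j * (p i)⁻¹)) := by
  have hm : (FreeGroup.of (Sum.inl i) : FF g h) ∈
      Subgroup.closure (FreeGroup.of '' {k : Fin g ⊕ Fin h | k ≠ Sum.inr j}) :=
    Subgroup.subset_closure ⟨Sum.inl i, by simp, rfl⟩
  have h1 := Mv2_rel_inr p q j hm (inv_mem hm) (by rw [map_inv, mul_inv_cancel])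
    (by rw [map_inv, mul_inv_cancel])
  rwa [map_inv, Mv2_ev_inl] at h1

/-- Move (c). Proof: `exists_tv` with `z = Sum.inr j`, `u = 1`, `v = ⁅of (inl i), of (inr l)⁆`; `θ
= 1`.
Here `⁅a, b⁆ = a * b * a⁻¹ * b⁻¹`. -/
theorem Rel.qcom (i : Fin g) {j l : Fin h} (hl : l ≠ j) :
    Rel p q p (update q j (q j * ⁅p i, q l⁆)) := by
  have hm : (FreeGroup.of (Sum.inl i) : FF g h) ∈
      Subgroup.closure (FreeGroup.of '' {k : Fin g ⊕ Fin h | k ≠ Sum.inr j}) :=
    Subgroup.subset_closure ⟨Sum.inl i, by simp, rfl⟩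
  have hm' : (FreeGroup.of (Sum.inr l) : FF g h) ∈
      Subgroup.closure (FreeGroup.of '' {k : Fin g ⊕ Fin h | k ≠ Sum.inr j}) :=
    Subgroup.subset_closure ⟨Sum.inr l, fun h2 => hl (Sum.inr.inj h2), rfl⟩
  have hV : (⁅(FreeGroup.of (Sum.inl i) : FF g h), FreeGroup.of (Sum.inr l)⁆ : FF g h) ∈
      Subgroup.closure (FreeGroup.of '' {k : Fin g ⊕ Fin h | k ≠ Sum.inr j}) := by
    rw [commutatorElement_def]
    exact mul_mem (mul_mem (mul_mem hm hm') (inv_mem hm)) (inv_mem hm')
  have h1 := Mv2_rel_inr p q j (one_mem _) hV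
    (by
      rw [map_one, one_mul, commutatorElement_def, map_mul, map_mul, map_mul, map_inv, map_inv,
        mul_right_comm (Abelianization.of (FreeGroup.of (Sum.inl i) : FF g h)),
        mul_inv_cancel, one_mul, mul_inv_cancel])
    (by
      rw [map_one, one_mul, commutatorElement_def, map_mul, map_mul, map_mul, map_inv, map_inv,
        Mv2_pr_inr, mul_one, inv_one, mul_one, mul_inv_cancel])
  have h2 : ev p q ⁅(FreeGroup.of (Sum.inl i) : FF g h), FreeGroup.of (Sum.inr l)⁆ =
      ⁅p i, q l⁆ := by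
    rw [commutatorElement_def, commutatorElement_def, map_mul, map_mul, map_mul, map_inv, map_inv,
      Mv2_ev_inl, Mv2_ev_inr]
  rwa [map_one, one_mul, h2] at h1

/-- Consequence of (a): conjugation of `p i` by an element of `⟨q⟩`. -/
theorem Rel.pconj (i : Fin g) {c : Q} (hc : c ∈ Subgroup.closure (Set.range q)) :
    Rel p q (update p i (c * p i * c⁻¹)) q := by
  obtain ⟨W, hW, hw'⟩ := Mv2_word p q i (Subgroup.closure_mono Set.subset_union_right hc)
  have h1 := Mv2_rel_inl p q i hW (inv_mem hW)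
  rwa [map_inv, hw'] at h1

private theorem Mv2_ind (p' : Fin g → Q)
    (H : ∀ r : Fin g → Q, (∀ k, r k = p k ∨ r k = p' k) → ∀ k,
      p k = p' k ∨ Subgroup.closure (r '' {l | l ≠ k} ∪ Set.range q) = ⊤) :
    Rel p q p' q := by
  classical
  have key : ∀ s : Finset (Fin g), Rel p q (fun k => if k ∈ s then p' k else p k) q := by
    intro s
    induction s using Finset.induction_on with
    | empty =>
      have h1 : (fun k => if k ∈ (∅ : Finset (Fin g)) then p' k else p k) = p := by
        funext k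
        rw [if_neg (Finset.notMem_empty k)]
      rw [h1]
      exact Rel.refl p q
    | insert k s hk ih =>
      have hk1 : (fun l => if l ∈ s then p' l else p l) k = p k := if_neg hk
      have h1 : (fun l => if l ∈ insert k s then p' l else p l) =
          update (fun l => if l ∈ s then p' l else p l) k
            ((fun l => if l ∈ s then p' l else p l) k * ((p k)⁻¹ * p' k)) := by
        funext l
        by_cases hl : l = k
        · subst hl
          rw [update_self, hk1, if_pos (Finset.mem_insert_self _ _), mul_inv_cancel_left]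
        · rw [update_of_ne hl]
          by_cases hls : l ∈ s
          · rw [if_pos (Finset.mem_insert_of_mem hls), if_pos hls]
          · rw [if_neg hls, if_neg]
            rw [Finset.mem_insert]
            exact not_or.2 ⟨hl, hls⟩
      rw [h1]
      rcases H (fun l => if l ∈ s then p' l else p l) (fun l => by
        by_cases hls : l ∈ s
        · exact Or.inr (if_pos hls)
        · exact Or.inl (if_neg hls)) k with h2 | h2
      · rw [← h2, inv_mul_cancel, mul_one, update_eq_self]
        exact ih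
      · refine ih.trans (Rel.pmul k ?_)
        rw [h2]
        exact Subgroup.mem_top _
  have h1 := key Finset.univ
  have h2 : (fun k => if k ∈ (Finset.univ : Finset (Fin g)) then p' k else p k) = p' := by
    funext k
    rw [if_pos (Finset.mem_univ k)]
  rwa [h2] at h1

/-- Consequence of (a): if `i0` is a fixed index and the `q j` together with `p i0` generate `Q`,
then
all states with the same entry at `i0` are equivalent. Proof: induction over a finite set of
indices `≠ i0` (`Finset.induction_on`), replacing one entry after the other. -/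
theorem Rel.guard (i0 : Fin g) (p' : Fin g → Q) (h0 : p' i0 = p i0)
    (hq : Subgroup.closure (insert (p i0) (Set.range q)) = ⊤) : Rel p q p' q := by
  refine Mv2_ind p' fun r hr k => ?_
  by_cases hk : k = i0
  · exact Or.inl (by rw [hk, h0])
  · right
    have hri : r i0 = p i0 := by
      rcases hr i0 with h1 | h1
      · exact h1
      · rw [h1, h0]
    rw [eq_top_iff, ← hq]
    refine Subgroup.closure_mono ?_
    rintro x (rfl | hx)
    · exact Or.inl ⟨i0, fun h1 => hk h1.symm, hri⟩
    · exact Or.inr hx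

/-- Consequence (d): if the `q j` generate `Q` then `p` can be changed arbitrarily. -/
theorem Rel.free (p' : Fin g → Q) (hq : Subgroup.closure (Set.range q) = ⊤) :
    Rel p q p' q := by
  refine Mv2_ind p' fun r _ k => Or.inr ?_
  rw [eq_top_iff, ← hq]
  exact Subgroup.closure_mono Set.subset_union_right

end

end Pool.Agent.MPb5eQ
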