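import Pool.Agent.Lib.MP_b5ead8_al_Q.Defs

/-!
# MP_b5ead8_al, project SolvableQuotients: sections of polycyclic groups
-/

set_option autoImplicit false

namespace Pool.Agent.MPb5eQ

open Function

/-- Submodules of equal rank: the quotient is finite. -/
private theorem pos_fin {A : Type} [AddCommGroup A] [Module.Finite ℤ A] (S' S : Submodule ℤ A)
    (h : S' ≤ S) (hr : Module.finrank ℤ S ≤ Module.finrank ℤ S') :
    Finite (LinearMap.range (S'.mkQ ∘ₗ S.subtype)) := by
  have h1 := Submodule.finrank_quotient_add_finrank (LinearMap.ker (S'.mkQ ∘ₗ S.subtype))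
  rw [(LinearMap.quotKerEquivRange (S'.mkQ ∘ₗ S.subtype)).finrank_eq] at h1
  have h2 : LinearMap.ker (S'.mkQ ∘ₗ S.subtype) = Submodule.comap S.subtype S' := by
    rw [LinearMap.ker_comp, Submodule.ker_mkQ]
  rw [h2, (Submodule.comapSubtypeEquivOfLe h).finrank_eq] at h1
  have h3 : Module.finrank ℤ (LinearMap.range (S'.mkQ ∘ₗ S.subtype)) = 0 := by omega
  exact Module.finite_of_fg_torsion _ (Module.finrank_eq_zero_iff_isTorsion.1 h3)

open scoped commutatorElement in
private theorem pos_comm {Q : Type} [Group Q] {K M : Subgroup Q} (hab : ⁅M, M⁆ ≤ K) {x y : Q}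
    (hx : x ∈ M) (hy : y ∈ M) : (x * y)⁻¹ * (y * x) ∈ K := by
  have h1 : (x * y)⁻¹ * (y * x) = ⁅y⁻¹, x⁻¹⁆ := by
    rw [commutatorElement_def]
    group
  rw [h1]
  exact hab (Subgroup.commutator_mem_commutator (inv_mem hy) (inv_mem hx))

private theorem pos_aux {Q G0 : Type} [Group Q] [CommGroup G0] {K M : Subgroup Q} [M.Normal]
    (π : M →* G0) (hk : ∀ x : M, π x = 1 ↔ (x : Q) ∈ K) (hKM : K < M)
    [Module.Finite ℤ (Additive G0)] :
    ∃ L : Subgroup Q, L.Normal ∧ K < L ∧ L ≤ M ∧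
      ∀ L' : Subgroup Q, L'.Normal → K < L' → L' ≤ L → L'.relIndex L ≠ 0 := by
  let S : Subgroup Q → Submodule ℤ (Additive G0) := fun L =>
    AddSubgroup.toIntSubmodule (Subgroup.toAddSubgroup ((L.subgroupOf M).map π))
  have hS : ∀ (L : Subgroup Q) (x : M), Additive.ofMul (π x) ∈ S L ↔
      π x ∈ (L.subgroupOf M).map π := fun L x => Iff.rfl
  obtain ⟨L, ⟨hL1, hL2, hL3⟩, hmin⟩ := WellFounded.has_min
    (measure (fun L => Module.finrank ℤ (S L))).wf
    {L : Subgroup Q | L.Normal ∧ K < L ∧ L ≤ M} ⟨M, inferInstance, hKM, le_rfl⟩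
  refine ⟨L, hL1, hL2, hL3, fun L' hn hK' hLL => ?_⟩
  have h1 : ¬ Module.finrank ℤ (S L') < Module.finrank ℤ (S L) :=
    hmin L' ⟨hn, hK', hLL.trans hL3⟩
  have hle : S L' ≤ S L := by
    intro x hx
    obtain ⟨y, hy, hyx⟩ := hx
    exact ⟨y, hLL hy, hyx⟩
  haveI hfin := pos_fin (S L') (S L) hle (not_lt.1 h1)
  let g : L →* Multiplicative (Additive G0 ⧸ S L') :=
    { toFun := fun x => Multiplicative.ofAdd
        (Submodule.Quotient.mk (Additive.ofMul (π ⟨(x : Q), hL3 x.2⟩)))
      map_one' := by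
        have e : (⟨((1 : L) : Q), hL3 (1 : L).2⟩ : M) = 1 := rfl
        rw [e, map_one]
        rfl
      map_mul' := fun x y => by
        have e : (⟨((x * y : L) : Q), hL3 (x * y : L).2⟩ : M) =
          ⟨(x : Q), hL3 x.2⟩ * ⟨(y : Q), hL3 y.2⟩ := rfl
        rw [e, map_mul]
        rfl }
  have hrange : Finite g.range := by
    have h2 : ((LinearMap.range ((S L').mkQ ∘ₗ (S L).subtype) :
        Submodule ℤ (Additive G0 ⧸ S L')) : Set (Additive G0 ⧸ S L')).Finite :=
      Set.toFinite _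
    have h3 : (g.range : Set (Multiplicative (Additive G0 ⧸ S L'))).Finite := by
      refine (h2.image Multiplicative.ofAdd).subset ?_
      rintro _ ⟨x, rfl⟩
      refine ⟨_, ⟨⟨Additive.ofMul (π ⟨(x : Q), hL3 x.2⟩), ?_⟩, rfl⟩, rfl⟩
      exact ⟨⟨(x : Q), hL3 x.2⟩, x.2, rfl⟩
    exact h3
  have hker : g.ker ≤ L'.subgroupOf L := by
    intro x hx
    have h4 : (Submodule.Quotient.mk (Additive.ofMul (π ⟨(x : Q), hL3 x.2⟩)) :
        Additive G0 ⧸ S L') = 0 := hx
    rw [Submodule.Quotient.mk_eq_zero, hS] at h4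
    obtain ⟨y, hy, hyx⟩ := h4
    have h5 : π (y⁻¹ * ⟨(x : Q), hL3 x.2⟩) = 1 := by
      rw [map_mul, map_inv, hyx, inv_mul_cancel]
    rw [hk] at h5
    have h6 : (y : Q) ∈ L' := hy
    have h7 : (y : Q)⁻¹ * (x : Q) ∈ L' := hK'.le h5
    have h8 := L'.mul_mem h6 h7
    rw [mul_inv_cancel_left] at h8
    exact h8
  have h9 : g.ker.index ≠ 0 := by
    rw [Subgroup.index_ker]
    exact Nat.card_ne_zero.2 ⟨inferInstance, hrange⟩
  intro h0
  have h10 := Subgroup.index_dvd_of_le hker
  have h11 : (L'.subgroupOf L).index = 0 := h0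
  rw [h11, zero_dvd_iff] at h10
  exact h9 h10

/-- A finitely generated abelian normal section contains a nontrivial section in which all
nontrivial normal subgroups have finite index.

Proof. Let `A = Additive (M ⧸ K.subgroupOf M)`, a commutative group (by `hab`) and a finitely
generated
`ℤ`-module (`hfg`). Every subgroup `L` with `K ≤ L ≤ M` gives the submodule `S L` of `A`. Choose a
normal `L` with `K < L ≤ M` such that `Module.finrank ℤ (S L)` is minimal. If `L'` is normal and
`K < L' ≤ L`, then `S L' ≤ S L` and the ranks are equal, so `S L ⧸ S L'` has rank zero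
(`Submodule.finrank_quotient_add_finrank`), is a torsion module
(`Module.finrank_eq_zero_iff_isTorsion`) and finite (`Module.finite_of_fg_torsion`), so
`L'.relIndex L ≠ 0`. -/
theorem pol_sec {Q : Type} [Group Q] {K M : Subgroup Q} [K.Normal] [M.Normal] (hKM : K < M)
    (hab : ⁅M, M⁆ ≤ K) (hfg : M.FG) :
    ∃ L : Subgroup Q, L.Normal ∧ K < L ∧ L ≤ M ∧
      ∀ L' : Subgroup Q, L'.Normal → K < L' → L' ≤ L → L'.relIndex L ≠ 0 := by
  have hc : ∀ a b : M ⧸ K.subgroupOf M, a * b = b * a := by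
    intro a b
    induction a using QuotientGroup.induction_on with
    | H x =>
      induction b using QuotientGroup.induction_on with
      | H y =>
        rw [← QuotientGroup.mk_mul, ← QuotientGroup.mk_mul, QuotientGroup.eq]
        show ((x * y)⁻¹ * (y * x) : M).1 ∈ K
        exact pos_comm hab x.2 y.2
  letI : CommGroup (M ⧸ K.subgroupOf M) :=
    { (inferInstance : Group (M ⧸ K.subgroupOf M)) with mul_comm := hc }
  haveI : Group.FG M := (Group.fg_iff_subgroup_fg M).2 hfg
  haveI : Group.FG (M ⧸ K.subgroupOf M) := inferInstance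
  haveI : Module.Finite ℤ (Additive (M ⧸ K.subgroupOf M)) := by
    rw [Module.Finite.iff_addGroup_fg]
    infer_instance
  refine pos_aux (QuotientGroup.mk' (K.subgroupOf M)) (fun x => ?_) hKM
  rw [QuotientGroup.mk'_apply, QuotientGroup.eq_one_iff]
  rfl

end Pool.Agent.MPb5eQ
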