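import Pool.Agent.Lib.MP_b5ead8_al_Q.PoS

/-!
# MP_b5ead8_al, project SolvableQuotients: polycyclic groups
-/

set_option autoImplicit false

namespace Pool.Agent.MPb5eQ

open Function

private theorem Pol_wf {Q : Type} [Group Q] (hfg : ∀ H : Subgroup Q, H.FG) :
    WellFoundedGT (Subgroup Q) := by
  rw [wellFoundedGT_iff_monotone_chain_condition]
  intro a
  obtain ⟨S, hS⟩ := hfg (⨆ n, a n)
  have h1 : ∀ s ∈ S, ∃ n, s ∈ a n := by
    intro s hs
    have h2 : s ∈ ⨆ n, a n := by
      rw [← hS]
      exact Subgroup.subset_closure hs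
    exact (Subgroup.mem_iSup_of_directed a.monotone.directed_le).1 h2
  choose! f hf using h1
  refine ⟨S.sup f, fun m hm => le_antisymm (a.monotone hm) ?_⟩
  calc a m ≤ ⨆ n, a n := le_iSup (fun n => a n) m
    _ = Subgroup.closure (S : Set Q) := hS.symm
    _ ≤ a (S.sup f) := by
      rw [Subgroup.closure_le]
      intro s hs
      exact a.monotone (Finset.le_sup hs) (hf s hs)

open scoped commutatorElement in
private theorem Pol_comm {Q : Type} [Group Q] {D K : Subgroup Q} [K.Normal]
    (h : ⁅D, D⁆ ≤ K) : ⁅D ⊔ K, D ⊔ K⁆ ≤ K := by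
  rw [Subgroup.commutator_le]
  intro g₁ h₁ g₂ h₂
  obtain ⟨d₁, hd₁, k₁, hk₁, rfl⟩ := Subgroup.mem_sup_of_normal_right.1 h₁
  obtain ⟨d₂, hd₂, k₂, hk₂, rfl⟩ := Subgroup.mem_sup_of_normal_right.1 h₂
  have h3 : ⁅d₁, d₂⁆ ∈ K := h (Subgroup.commutator_mem_commutator hd₁ hd₂)
  rw [← QuotientGroup.eq_one_iff] at h3 hk₁ hk₂ ⊢
  rw [commutatorElement_def] at h3 ⊢
  simp only [QuotientGroup.mk_mul, QuotientGroup.mk_inv] at h3 ⊢
  rw [hk₁, hk₂, mul_one, mul_one]
  exact h3

/-- Polycyclic groups (solvable groups in which all subgroups are finitely generated) have a series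
as in `SerFrom`.

Proof. Induction on `K` for `>` (well founded, because all subgroups are finitely generated: the
union of a chain is finitely generated). If `K = ⊤` the series has length `0`. Otherwise let `i` be
minimal with `derivedSeries Q i ≤ K` (`i ≥ 1`) and `M = derivedSeries Q (i - 1) ⊔ K`: normal, larger
than `K`, `⁅M, M⁆ ≤ K`. `pol_sec` gives `L`; `Fac K L` holds (`⁅L, L⁆ ≤ ⁅M, M⁆ ≤ K`); by induction
there
is a series from `L` to `⊤`; prepend `K`. -/
theorem pol_from {Q : Type} [Group Q] (hQ : Group.IsSolvable Q) (hfg : ∀ H : Subgroup Q, H.FG)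
    (K : Subgroup Q) (hK : K.Normal) : SerFrom K := by
  have hwf := Pol_wf hfg
  revert hK
  induction K using hwf.wf.induction with
  | _ K ih =>
    intro hK
    by_cases htop : K = ⊤
    · exact ⟨0, fun _ => K, fun _ => hK, rfl, htop, fun i hi => absurd hi (Nat.not_lt_zero i)⟩
    · have hex : ∃ i, derivedSeries Q i ≤ K := by
        obtain ⟨n, hn⟩ := hQ.solvable
        exact ⟨n, by rw [hn]; exact bot_le⟩
      classical
      obtain ⟨j, hj⟩ : ∃ j, Nat.find hex = j + 1 := by
        refine Nat.exists_eq_succ_of_ne_zero fun h0 => htop ?_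
        have h1 := Nat.find_spec hex
        rw [h0, derivedSeries_zero] at h1
        exact top_le_iff.1 h1
      have h1 : derivedSeries Q (j + 1) ≤ K := hj ▸ Nat.find_spec hex
      have h2 : ¬ derivedSeries Q j ≤ K := Nat.find_min hex (by rw [hj]; exact Nat.lt_succ_self j)
      have : (derivedSeries Q j).Normal := derivedSeries_normal Q j
      have hM : (derivedSeries Q j ⊔ K).Normal := Subgroup.sup_normal _ _
      have hKM : K < derivedSeries Q j ⊔ K :=
        lt_of_le_of_ne le_sup_right fun e => h2 (by rw [e]; exact le_sup_left)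
      have hab : ⁅derivedSeries Q j ⊔ K, derivedSeries Q j ⊔ K⁆ ≤ K := Pol_comm h1
      obtain ⟨L, hLn, hKL, hLM, hfin⟩ := pol_sec hKM hab (hfg _)
      obtain ⟨n, M, m1, m2, m3, m4⟩ := ih L hKL hLn
      refine ⟨n + 1, fun i => Nat.casesOn i K M, ?_, rfl, m3, ?_⟩
      · intro i
        cases i with
        | zero => exact hK
        | succ i => exact m1 i
      · intro i hi
        cases i with
        | zero =>
          change Fac K (M 0)
          rw [m2]
          exact ⟨hKL.le, Or.inr ⟨(Subgroup.commutator_mono hLM hLM).trans hab, hfin⟩⟩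
        | succ i => exact m4 i (by omega)

end Pool.Agent.MPb5eQ
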