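import Pool.Agent.Lib.MP_b5ead8_al_Q.Cen
import Pool.Agent.Lib.MP_b5ead8_al_Q.Chf
import Pool.Agent.Lib.MP_b5ead8_al_Q.Jin

/-!
# MP_b5ead8_al, project SolvableQuotients: the basic step
-/

set_option autoImplicit false

namespace Pool.Agent.MPb5eQ

open Function
open scoped commutatorElement

section

variable {g h : ℕ} {Q : Type} [Group Q] {p : Fin g → Q} {b q : Fin h → Q}

/-- `STEP` of the text.

Proof. Let `Z = M ⊓ center Q`. If `Z ≠ ⊥`: `hL Z`, `St.rel`, `cen`. Otherwise, if `M` is minimal: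
`hL M`, `chf`. Otherwise there is a normal `L1` with `⊥ < L1 < M`; take `u0 ∈ M`, `u0 ≠ 1`,
`C = ⁅normalClosure {u0}, ⊤⁆`. `C ≠ ⊥` since otherwise `u0` is central. `E = C` if `C ≠ M`, `E =
L1` if
`C = M`; `hL E`, `St.rel`, `jin`. -/
theorem step (hg : 2 ≤ g) {M : Subgroup Q} [M.Normal] (hM : ⁅M, M⁆ = ⊥) (hne : M ≠ ⊥)
    (hfin : ∀ L : Subgroup Q, L.Normal → L ≠ ⊥ → L ≤ M → L.relIndex M ≠ 0) (hs : St b p q)
    (hL : ∀ L : Subgroup Q, L.Normal → L ≠ ⊥ → L ≤ M → To b p q L) :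
    Rel p q (fun _ => 1) b := by
  by_cases hz : M ⊓ Subgroup.center Q = ⊥
  · by_cases hmin : ∀ L : Subgroup Q, L.Normal → L ≤ M → L = ⊥ ∨ L = M
    · obtain ⟨p', q', h1, h2, h3⟩ := hL M inferInstance hne le_rfl
      exact h1.trans (chf (by omega) hM hmin hne hz (hs.rel h1) h2 h3)
    · push Not at hmin
      obtain ⟨L1, hL1n, hL1M, hL1b, hL1ne⟩ := hmin
      obtain ⟨u0, hu0, hu1⟩ := (Subgroup.ne_bot_iff_exists_ne_one).1 hne |>.elim
        fun m hm => (⟨(m : Q), m.2, fun h => hm (Subtype.ext h)⟩ : ∃ m : Q, m ∈ M ∧ m ≠ 1)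
      have hnc : Subgroup.normalClosure {u0} ≤ M :=
        Subgroup.normalClosure_le_normal (Set.singleton_subset_iff.2 hu0)
      have hCM : ⁅Subgroup.normalClosure {u0}, (⊤ : Subgroup Q)⁆ ≤ M :=
        (Subgroup.commutator_le_left _ _).trans hnc
      have hC : ⁅Subgroup.normalClosure {u0}, (⊤ : Subgroup Q)⁆ ≠ ⊥ := by
        intro h0
        apply hu1
        have h1 : u0 ∈ M ⊓ Subgroup.center Q := by
          refine Subgroup.mem_inf.2 ⟨hu0, Subgroup.mem_center_iff.2 fun c => ?_⟩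
          have h2 : ⁅u0, c⁆ ∈ ⁅Subgroup.normalClosure {u0}, (⊤ : Subgroup Q)⁆ :=
            Subgroup.commutator_mem_commutator
              (Subgroup.subset_normalClosure (Set.mem_singleton u0)) (Subgroup.mem_top c)
          rw [h0, Subgroup.mem_bot] at h2
          exact (commutatorElement_eq_one_iff_mul_comm.1 h2).symm
        rw [hz] at h1
        exact Subgroup.mem_bot.1 h1
      obtain ⟨E, hEn, hEb, hEM, hE, hEne⟩ : ∃ E : Subgroup Q, E.Normal ∧ E ≠ ⊥ ∧ E ≤ M ∧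
          E ≤ ⁅Subgroup.normalClosure {u0}, (⊤ : Subgroup Q)⁆ ∧ E ≠ M := by
        by_cases h1 : ⁅Subgroup.normalClosure {u0}, (⊤ : Subgroup Q)⁆ = M
        · exact ⟨L1, hL1n, hL1b, hL1M, by rw [h1]; exact hL1M, hL1ne⟩
        · exact ⟨_, Subgroup.commutator_normal _ _, hC, hCM, le_rfl, h1⟩
      obtain ⟨p', q', h1, h2, h3⟩ := hL E hEn hEb hEM
      exact h1.trans (jin hg hM hfin hu0 hE hEne (hs.rel h1) h2 h3)
  · obtain ⟨p', q', h1, h2, h3⟩ := hL (M ⊓ Subgroup.center Q) inferInstance hz inf_le_left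
    exact h1.trans (cen hg inf_le_right (hs.rel h1) h2 h3)

end

end Pool.Agent.MPb5eQ
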