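import Pool.Agent.Lib.MP_b5ead8_al_Q.Stp

/-!
# MP_b5ead8_al, project SolvableQuotients: the main proposition
-/

set_option autoImplicit false

namespace Pool.Agent.MPb5eQ

open Function
open scoped commutatorElement

section

variable {g h : ℕ} {Q G : Type} [Group Q] [Group G] {p : Fin g → Q} {b q : Fin h → Q}

/-- Passage to a quotient. -/
theorem To.map (f : Q →* G) {K : Subgroup G} (h1 : To b p q (K.comap f)) :
    To (f ∘ b) (f ∘ p) (f ∘ q) K := by
  obtain ⟨p', q', h2, h3, h4⟩ := h1
  refine ⟨f ∘ p', f ∘ q', h2.map f, fun i => h3 i, fun j => ?_⟩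
  have h5 := h4 j
  rw [Subgroup.mem_comap, map_mul, map_inv] at h5
  exact h5

/-- Lift from the quotient by `K`. Proof: `Rel.lift` for `QuotientGroup.mk' K`. -/
theorem To.of_quotient {K : Subgroup Q} [K.Normal]
    (h1 : Rel (QuotientGroup.mk' K ∘ p) (QuotientGroup.mk' K ∘ q) (fun _ => 1)
      (QuotientGroup.mk' K ∘ b)) : To b p q K := by
  obtain ⟨p', q', h2, h3, h4⟩ := Rel.lift (QuotientGroup.mk' K) h1
  refine ⟨p', q', h2, fun i => ?_, fun j => ?_⟩
  · have h5 := congrFun h3 i
    exact (QuotientGroup.eq_one_iff _).1 h5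
  · have h5 := congrFun h4 j
    exact QuotientGroup.eq.1 h5.symm

/-- From all larger normal subgroups to `K`. Proof: `step` in `Q ⧸ K` for the image of `M`
(`Subgroup.map`); a normal subgroup `L ≠ ⊥` of the quotient in the image of `M` corresponds to
`L.comap (mk' K)`, which is larger than `K` and contained in `M`; `Subgroup.relIndex_comap`,
`To.map`,
`To.of_quotient`, `St.map`. -/
theorem descend (hg : 2 ≤ g) {K M : Subgroup Q} [K.Normal] [M.Normal] (hKM : K < M)
    (hM : ⁅M, M⁆ ≤ K)
    (hfin : ∀ L : Subgroup Q, L.Normal → K < L → L ≤ M → L.relIndex M ≠ 0) (hs : St b p q)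
    (hL : ∀ L : Subgroup Q, L.Normal → K < L → L ≤ M → To b p q L) : To b p q K := by
  have hsurj : Surjective (QuotientGroup.mk' K) := QuotientGroup.mk'_surjective K
  have hn : (M.map (QuotientGroup.mk' K)).Normal := Subgroup.Normal.map inferInstance _ hsurj
  have hker : (QuotientGroup.mk' K).ker = K := QuotientGroup.ker_mk' K
  have hM' : ⁅M.map (QuotientGroup.mk' K), M.map (QuotientGroup.mk' K)⁆ = ⊥ := by
    rw [← Subgroup.map_commutator, Subgroup.map_eq_bot_iff, hker]
    exact hM
  have hne : M.map (QuotientGroup.mk' K) ≠ ⊥ := by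
    intro h0
    rw [Subgroup.map_eq_bot_iff, hker] at h0
    exact (not_le_of_gt hKM) h0
  have hco : ∀ L : Subgroup (Q ⧸ K), L.Normal → L ≠ ⊥ → L ≤ M.map (QuotientGroup.mk' K) →
      (L.comap (QuotientGroup.mk' K)).Normal ∧ K < L.comap (QuotientGroup.mk' K) ∧
        L.comap (QuotientGroup.mk' K) ≤ M := by
    intro L hLn hLb hLM
    refine ⟨Subgroup.Normal.comap hLn _, lt_of_le_of_ne ?_ ?_, ?_⟩
    · nth_rewrite 1 [← hker]
      exact Subgroup.ker_le_comap _ _
    · intro h0
      apply hLb
      have h1 := Subgroup.map_comap_eq_self_of_surjective hsurj L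
      rw [← h0] at h1
      rw [← h1, Subgroup.map_eq_bot_iff, hker]
    · have h1 := Subgroup.comap_mono (f := QuotientGroup.mk' K) hLM
      rw [Subgroup.comap_map_eq, hker, sup_eq_left.2 hKM.le] at h1
      exact h1
  refine To.of_quotient (step hg (M := M.map (QuotientGroup.mk' K)) hM' hne ?_
    (hs.map (QuotientGroup.mk' K) hsurj) ?_)
  · intro L hLn hLb hLM
    obtain ⟨h1, h2, h3⟩ := hco L hLn hLb hLM
    rw [← Subgroup.relIndex_comap]
    exact hfin _ h1 h2 h3
  · intro L hLn hLb hLM
    obtain ⟨h1, h2, h3⟩ := hco L hLn hLb hLM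
    exact To.map (QuotientGroup.mk' K) (hL _ h1 h2 h3)

/-- One factor of the series.

Proof. Central factor: let `(p', q')` be given by `h1`; `cen` in `Q ⧸ K` for `Z = M.map (mk' K)`
(central
because `⁅M, ⊤⁆ ≤ K`), and `To.of_quotient` for `(p', q')`, `Rel.trans`. Other factor: if `K = M`
trivial.
Otherwise first prove `To b p q L` for all normal `L` with `K < L ≤ M` by strong induction on
`L.relIndex M`: for `L = M` this is `h1`, for `L < M` use `descend` for `L`, `M`; for normal `L'`
with
`L < L' ≤ M` the index `L'.relIndex M` is smaller. Then `descend` for `K`, `M`. -/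
theorem fac_step (hg : 2 ≤ g) {K M : Subgroup Q} [K.Normal] [M.Normal] (hf : Fac K M)
    (hs : St b p q) (h1 : To b p q M) : To b p q K := by
  obtain ⟨hKM, hc | ⟨hab, hfin⟩⟩ := hf
  · obtain ⟨p', q', h2, h3, h4⟩ := h1
    have hsurj : Surjective (QuotientGroup.mk' K) := QuotientGroup.mk'_surjective K
    have hZ : M.map (QuotientGroup.mk' K) ≤ Subgroup.center (Q ⧸ K) := by
      rintro _ ⟨m, hm, rfl⟩
      rw [Subgroup.mem_center_iff]
      intro c
      obtain ⟨c, rfl⟩ := hsurj c
      have h5 : ⁅m, c⁆ ∈ K := hc (Subgroup.commutator_mem_commutator hm (Subgroup.mem_top c))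
      have h6 : ⁅QuotientGroup.mk' K m, QuotientGroup.mk' K c⁆ = 1 := by
        rw [← map_commutatorElement]
        exact (QuotientGroup.eq_one_iff _).2 h5
      exact (commutatorElement_eq_one_iff_mul_comm.1 h6).symm
    have h5 := cen hg hZ ((hs.rel h2).map (QuotientGroup.mk' K) hsurj)
      (fun i => ⟨p' i, h3 i, rfl⟩) (fun j => ⟨(b j)⁻¹ * q' j, h4 j, by simp⟩)
    obtain ⟨p'', q'', h6, h7, h8⟩ := To.of_quotient h5
    exact ⟨p'', q'', h2.trans h6, h7, h8⟩
  · rcases hKM.eq_or_lt with h0 | h0
    · rw [h0]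
      exact h1
    · have key : ∀ n : ℕ, ∀ L : Subgroup Q, L.Normal → K < L → L ≤ M → L.relIndex M ≤ n →
          To b p q L := by
        intro n
        induction n with
        | zero =>
          intro L hLn hKL hLM hi
          exact absurd (Nat.le_zero.1 hi) (hfin L hLn hKL hLM)
        | succ n ih =>
          intro L hLn hKL hLM hi
          rcases hLM.eq_or_lt with h2 | h2
          · rw [h2]
            exact h1
          · refine descend hg h2 (hab.trans hKL.le)
              (fun L' hn' hl' hm' => hfin L' hn' (hKL.trans hl') hm') hs ?_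
            intro L' hn' hl' hm'
            refine ih L' hn' (hKL.trans hl') hm' ?_
            have h3 := Subgroup.relIndex_mul_relIndex L L' M hl'.le hm'
            have h4 := hfin L hLn hKL hLM
            have h5 := hfin L' hn' (hKL.trans hl') hm'
            have h6 : L.relIndex L' ≠ 1 := by
              rw [Ne, Subgroup.relIndex_eq_one]
              exact not_le_of_gt hl'
            have h7 : L.relIndex L' ≠ 0 := by
              intro h8
              rw [h8, zero_mul] at h3
              exact h4 h3.symm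
            have h8 : 2 ≤ L.relIndex L' := by omega
            have h9 : 2 * L'.relIndex M ≤ L.relIndex L' * L'.relIndex M :=
              Nat.mul_le_mul_right _ h8
            omega
      exact descend hg h0 hab hfin hs fun L hLn hKL hLM => key _ L hLn hKL hLM le_rfl

/-- The main proposition. Proof: `To b p q ⊤` is trivial; `fac_step` for `M (i + 1)`, `M i`,
`i = n - 1, ..., 0`; `To b p q ⊥` says that `(p, q)` is equivalent to `(1, b)`. -/
theorem main_prop (hg : 2 ≤ g) (hQ : SerFrom (⊥ : Subgroup Q)) (hs : St b p q) :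
    Rel p q (fun _ => 1) b := by
  obtain ⟨n, M, hN, hM0, hMn, hf⟩ := hQ
  have key : ∀ i, i ≤ n → To b p q (M (n - i)) := by
    intro i
    induction i with
    | zero =>
      intro _
      rw [Nat.sub_zero, hMn]
      exact ⟨p, q, Rel.refl p q, fun i => Subgroup.mem_top _, fun j => Subgroup.mem_top _⟩
    | succ i ih =>
      intro hi
      have h1 := ih (by omega)
      have h2 : n - i = (n - (i + 1)) + 1 := by omega
      rw [h2] at h1
      have := hN (n - (i + 1))
      have := hN (n - (i + 1) + 1)
      exact fac_step hg (hf (n - (i + 1)) (by omega)) hs h1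
  have h1 := key n le_rfl
  rw [Nat.sub_self, hM0] at h1
  obtain ⟨p', q', h2, h3, h4⟩ := h1
  have h5 : p' = fun _ => 1 := funext fun i => Subgroup.mem_bot.1 (h3 i)
  have h6 : q' = b := funext fun j => (inv_mul_eq_one.1 (Subgroup.mem_bot.1 (h4 j))).symm
  rw [h5, h6] at h2
  exact h2

end

end Pool.Agent.MPb5eQ
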